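import Mathlib

/-!
# Project IT (MP_a499ba_nt): an effective form of Kronecker's theorem for the logarithms of primes
-/

set_option autoImplicit false

namespace Pool.Agent.Helper99.IT

open Finset Complex MeasureTheory

/-- the exponential with frequency `log n` -/
noncomputable def ex (n : ℕ) (τ : ℝ) : ℂ := cexp (I * (τ * Real.log n))

theorem continuous_ex99 (n : ℕ) : Continuous (ex n) := by
  unfold ex
  fun_prop

theorem log_sep99 {n m : ℕ} {R : ℝ} (hn : 1 ≤ n) (hm : 1 ≤ m) (hnR : (n : ℝ) ≤ R) (hmR : (m : ℝ) ≤ R)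
    (h : n ≠ m) : 1 / R ≤ |Real.log n - Real.log m| := by
  have key : ∀ a b : ℕ, 1 ≤ a → 1 ≤ b → (a : ℝ) ≤ R → (b : ℝ) ≤ R → a < b →
      1 / R ≤ Real.log b - Real.log a := by
    intro a b ha hb haR hbR hab
    have ha0 : (0 : ℝ) < a := by exact_mod_cast ha
    have hb0 : (0 : ℝ) < b := by exact_mod_cast hb
    have hR : 0 < R := lt_of_lt_of_le hb0 hbR
    have h1 : Real.log a - Real.log b ≤ (a : ℝ) / b - 1 := by
      rw [← Real.log_div ha0.ne' hb0.ne']
      exact Real.log_le_sub_one_of_pos (by positivity)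
    have h2 : (a : ℝ) + 1 ≤ b := by exact_mod_cast hab
    have h3 : (a : ℝ) / b - 1 ≤ -(1 / b) := by
      rw [div_sub_one hb0.ne', ← neg_div, div_le_div_iff_of_pos_right hb0]
      linarith
    have h4 : 1 / R ≤ 1 / (b : ℝ) := one_div_le_one_div_of_le hb0 hbR
    linarith
  rcases lt_or_gt_of_ne h with h' | h'
  · rw [abs_sub_comm]
    exact (key n m hn hm hnR hmR h').trans (le_abs_self _)
  · exact (key m n hm hn hmR hnR h').trans (le_abs_self _)

theorem int_ex99 {ω : ℝ} (hω : ω ≠ 0) (T : ℝ) : ‖∫ τ in (0 : ℝ)..T, cexp (I * (τ * ω))‖ ≤ 2 / |ω| := by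
  have h1 : (I * ω : ℂ) ≠ 0 := mul_ne_zero I_ne_zero (ofReal_ne_zero.2 hω)
  have h2 : ∀ τ : ℝ, cexp (I * (τ * ω)) = cexp ((I * ω) * τ) := by
    intro τ
    congr 1
    ring
  simp only [h2]
  rw [integral_exp_mul_complex h1, norm_div, norm_mul, norm_I, one_mul, norm_real, Real.norm_eq_abs]
  refine div_le_div_of_nonneg_right ?_ (abs_nonneg _)
  refine (norm_sub_le _ _).trans ?_
  have h3 : ∀ x : ℝ, ‖cexp (I * ω * x)‖ = 1 := by
    intro x
    rw [show I * (ω : ℂ) * x = ((ω * x : ℝ) : ℂ) * I by push_cast; ring]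
    exact norm_exp_ofReal_mul_I _
  rw [h3, h3]
  norm_num

/-- **Mean values.** -/
theorem mean99 (A : Finset ℕ) {R : ℝ} (hA : ∀ n ∈ A, 1 ≤ n ∧ (n : ℝ) ≤ R) (c : ℕ → ℂ)
    (hc : ∀ n, ‖c n‖ = 1) (T : ℝ) :
    |(∫ τ in (0 : ℝ)..T, ‖∑ n ∈ A, c n * ex n τ‖ ^ 2) - T * A.card| ≤ 2 * R * (A.card : ℝ) ^ 2 := by
  classical
  have hsq : ∀ τ : ℝ, ((‖∑ n ∈ A, c n * ex n τ‖ ^ 2 : ℝ) : ℂ) = ∑ n ∈ A, ∑ m ∈ A,
      c n * starRingEnd ℂ (c m) * cexp (I * (τ * (Real.log n - Real.log m : ℝ))) := by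
    intro τ
    rw [Complex.ofReal_pow, ← Complex.mul_conj', map_sum, Finset.sum_mul_sum]
    refine Finset.sum_congr rfl fun n _ => Finset.sum_congr rfl fun m _ => ?_
    have h1 : starRingEnd ℂ (ex m τ) = cexp (-(I * (τ * Real.log m))) := by
      unfold ex
      rw [← Complex.exp_conj]
      congr 1
      simp only [map_mul, conj_I, conj_ofReal]
      ring
    rw [map_mul, h1]
    unfold ex
    have h2 : cexp (I * (τ * (Real.log n - Real.log m : ℝ))) =
        cexp (I * (τ * Real.log n)) * cexp (-(I * (τ * Real.log m))) := by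
      rw [← Complex.exp_add]
      congr 1
      push_cast
      ring
    rw [h2]
    ring
  have hcont : ∀ n m : ℕ, Continuous fun τ : ℝ =>
      c n * starRingEnd ℂ (c m) * cexp (I * (τ * (Real.log n - Real.log m : ℝ))) := by
    intro n m
    fun_prop
  have hint : ((∫ τ in (0 : ℝ)..T, ‖∑ n ∈ A, c n * ex n τ‖ ^ 2 : ℝ) : ℂ) = ∑ n ∈ A, ∑ m ∈ A,
      c n * starRingEnd ℂ (c m) * ∫ τ in (0 : ℝ)..T, cexp (I * (τ * (Real.log n - Real.log m : ℝ))) := by
    rw [← intervalIntegral.integral_ofReal]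
    simp only [hsq]
    rw [intervalIntegral.integral_finsetSum fun n _ =>
      (continuous_finsetSum _ fun m _ => hcont n m).intervalIntegrable _ _]
    refine Finset.sum_congr rfl fun n _ => ?_
    rw [intervalIntegral.integral_finsetSum fun m _ => (hcont n m).intervalIntegrable _ _]
    refine Finset.sum_congr rfl fun m _ => ?_
    rw [intervalIntegral.integral_const_mul]
  have hdiag : (T * A.card : ℂ) = ∑ n ∈ A, ∑ m ∈ A, if n = m then (T : ℂ) else 0 := by
    simp only [Finset.sum_ite_eq]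
    rw [Finset.sum_congr rfl fun n hn => if_pos hn, Finset.sum_const, nsmul_eq_mul, mul_comm]
  rw [← Real.norm_eq_abs, ← Complex.norm_real]
  push_cast
  rw [hint, hdiag, ← Finset.sum_sub_distrib]
  calc _ ≤ ∑ n ∈ A, ∑ _m ∈ A, 2 * R := by
        refine (norm_sum_le _ _).trans (Finset.sum_le_sum fun n hn => ?_)
        rw [← Finset.sum_sub_distrib]
        refine (norm_sum_le _ _).trans (Finset.sum_le_sum fun m hm => ?_)
        have hR : 0 ≤ R := le_trans (Nat.cast_nonneg n) (hA n hn).2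
        by_cases h : n = m
        · subst h
          rw [if_pos rfl, sub_self]
          simp only [ofReal_zero, mul_zero, Complex.exp_zero, intervalIntegral.integral_const, sub_zero,
            Complex.real_smul, mul_one]
          rw [Complex.mul_conj', hc]
          simp only [ofReal_one, one_pow, one_mul, sub_self, norm_zero]
          positivity
        · rw [if_neg h, sub_zero, norm_mul, norm_mul, RCLike.norm_conj, hc, hc, one_mul, one_mul]
          have h1 := log_sep99 (hA n hn).1 (hA m hm).1 (hA n hn).2 (hA m hm).2 h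
          have hRpos : 0 < R := lt_of_lt_of_le (by exact_mod_cast (hA n hn).1) (hA n hn).2
          have h2 : 0 < |Real.log n - Real.log m| := lt_of_lt_of_le (by positivity) h1
          refine (int_ex99 (abs_pos.1 h2) T).trans ?_
          rw [div_le_iff₀ h2]
          have h3 : 1 ≤ R * |Real.log n - Real.log m| := by
            rw [div_le_iff₀ hRpos] at h1
            linarith
          linarith
    _ = 2 * R * (A.card : ℝ) ^ 2 := by
        simp only [Finset.sum_const, nsmul_eq_mul]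
        ring

/-- the point of the torus -/
noncomputable def zz (β : ℕ → ℝ) (p : ℕ) (τ : ℝ) : ℂ := cexp (I * (τ * Real.log p + β p))

theorem norm_zz99 (β : ℕ → ℝ) (p : ℕ) (τ : ℝ) : ‖zz β p τ‖ = 1 := by
  unfold zz
  rw [show I * ((τ : ℂ) * Real.log p + β p) = ((τ * Real.log p + β p : ℝ) : ℂ) * I by push_cast; ring]
  exact norm_exp_ofReal_mul_I _

theorem continuous_zz99 (β : ℕ → ℝ) (p : ℕ) : Continuous (zz β p) := by
  unfold zz
  fun_prop

/-- the kernel -/
noncomputable def DD (β : ℕ → ℝ) (N : ℕ) (S : Finset ℕ) (τ : ℝ) : ℂ :=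
  ∏ p ∈ S, ∑ a ∈ range N, zz β p τ ^ a

theorem continuous_DD99 (β : ℕ → ℝ) (N : ℕ) (S : Finset ℕ) : Continuous (DD β N S) := by
  unfold DD
  exact continuous_finsetProd _ fun p _ => continuous_finsetSum _ fun a _ => (continuous_zz99 β p).pow a

/-- the kernel is a Dirichlet polynomial with unimodular coefficients -/
theorem DD_eq99 (β : ℕ → ℝ) {N : ℕ} (S : Finset ℕ) : (∀ p ∈ S, p.Prime) →
    ∃ (A : Finset ℕ) (c : ℕ → ℂ), A.card = N ^ S.card ∧ (∀ n, ‖c n‖ = 1) ∧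
      (∀ n ∈ A, 1 ≤ n ∧ n ≤ ∏ p ∈ S, p ^ N ∧ ∀ q : ℕ, q.Prime → q ∣ n → q ∈ S) ∧
      ∀ τ, DD β N S τ = ∑ n ∈ A, c n * ex n τ := by
  classical
  induction S using Finset.induction_on with
  | empty =>
    intro _
    refine ⟨{1}, fun _ => 1, by simp, by simp, ?_, fun τ => ?_⟩
    · intro n hn
      rw [Finset.mem_singleton] at hn
      subst hn
      refine ⟨le_refl _, by simp, fun q hq h1 => ?_⟩
      exact absurd (Nat.le_of_dvd one_pos h1) (not_le.2 hq.one_lt)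
    · simp [DD, ex]
  | insert p S hp ih =>
    intro hS
    have hpp : p.Prime := hS p (Finset.mem_insert_self _ _)
    obtain ⟨A, c, hcard, hc, hA, hD⟩ := ih fun q hq => hS q (Finset.mem_insert_of_mem hq)
    have hcop : ∀ n ∈ A, ¬ p ∣ n := fun n hn h => hp ((hA n hn).2.2 p hpp h)
    have hfac : ∀ a : ℕ, ∀ n ∈ A, (p ^ a * n).factorization p = a ∧
        (p ^ a * n) / p ^ (p ^ a * n).factorization p = n := by
      intro a n hn
      have hn0 : n ≠ 0 := by have := (hA n hn).1; omega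
      have h1 : (p ^ a * n).factorization p = a := by
        rw [Nat.factorization_mul (pow_ne_zero _ hpp.ne_zero) hn0, Nat.factorization_pow,
          Finsupp.add_apply, Finsupp.smul_apply, hpp.factorization_self,
          Nat.factorization_eq_zero_of_not_dvd (hcop n hn)]
        simp
      refine ⟨h1, ?_⟩
      rw [h1]
      exact Nat.mul_div_cancel_left _ (pow_pos hpp.pos _)
    have hinj : Set.InjOn (fun x : ℕ × ℕ => p ^ x.1 * x.2) (range N ×ˢ A : Finset (ℕ × ℕ)) := by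
      rintro ⟨a, n⟩ hx ⟨b, m⟩ hy hxy
      rw [Finset.mem_coe, Finset.mem_product] at hx hy
      have hxy' : p ^ a * n = p ^ b * m := hxy
      obtain ⟨h1, h2⟩ := hfac a n hx.2
      obtain ⟨h3, h4⟩ := hfac b m hy.2
      rw [hxy'] at h1 h2
      exact Prod.ext (h1.symm.trans h3) (h2.symm.trans h4)
    refine ⟨(range N ×ˢ A).image fun x => p ^ x.1 * x.2,
      fun m => cexp (I * (m.factorization p * β p : ℝ)) * c (m / p ^ m.factorization p), ?_, ?_, ?_, ?_⟩
    · rw [Finset.card_image_of_injOn hinj, Finset.card_product, Finset.card_range, hcard,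
        Finset.card_insert_of_notMem hp, pow_succ, mul_comm]
    · intro m
      rw [norm_mul, hc, mul_one, mul_comm]
      exact norm_exp_ofReal_mul_I _
    · intro m hm
      obtain ⟨⟨a, n⟩, hx, rfl⟩ := Finset.mem_image.1 hm
      rw [Finset.mem_product, Finset.mem_range] at hx
      obtain ⟨ha, hn⟩ := hx
      have ha' : a < N := ha
      have hn' : n ∈ A := hn
      obtain ⟨h1, h2, h3⟩ := hA n hn'
      refine ⟨Nat.succ_le_of_lt (Nat.mul_pos (pow_pos hpp.pos _) (by omega)), ?_, ?_⟩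
      · rw [Finset.prod_insert hp]
        exact Nat.mul_le_mul (Nat.pow_le_pow_right hpp.pos ha'.le) h2
      · intro q hq hd
        rcases hq.dvd_mul.1 hd with h4 | h4
        · rw [(Nat.prime_dvd_prime_iff_eq hq hpp).1 (hq.dvd_of_dvd_pow h4)]
          exact Finset.mem_insert_self _ _
        · exact Finset.mem_insert_of_mem (h3 q hq h4)
    · intro τ
      have h1 : DD β N (insert p S) τ = (∑ a ∈ range N, zz β p τ ^ a) * DD β N S τ := by
        unfold DD
        rw [Finset.prod_insert hp]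
      rw [h1, hD, Finset.sum_mul_sum, Finset.sum_image hinj, Finset.sum_product]
      refine Finset.sum_congr rfl fun a _ => Finset.sum_congr rfl fun n hn => ?_
      obtain ⟨h2, h3⟩ := hfac a n hn
      simp only
      rw [h3, h2]
      have hn0 : (n : ℝ) ≠ 0 := by
        have := (hA n hn).1
        exact_mod_cast (by omega : n ≠ 0)
      have hp0 : ((p : ℝ) ^ a) ≠ 0 := pow_ne_zero _ (by exact_mod_cast hpp.ne_zero)
      have h4 : zz β p τ ^ a * ex n τ = cexp (I * (a * β p : ℝ)) * ex (p ^ a * n) τ := by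
        have hlog : Real.log ((p ^ a * n : ℕ) : ℝ) = a * Real.log p + Real.log n := by
          rw [Nat.cast_mul, Nat.cast_pow, Real.log_mul hp0 hn0, Real.log_pow]
        unfold zz ex
        rw [← Complex.exp_nat_mul, ← Complex.exp_add, ← Complex.exp_add, hlog]
        congr 1
        generalize Real.log p = lp
        generalize Real.log n = ln
        push_cast
        ring
      calc zz β p τ ^ a * (c n * ex n τ) = c n * (zz β p τ ^ a * ex n τ) := by ring
        _ = _ := by rw [h4]; ring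

theorem DD_mean99 (β : ℕ → ℝ) {N : ℕ} (S : Finset ℕ) (hS : ∀ p ∈ S, p.Prime) (T : ℝ) {R : ℝ}
    (hR : ((∏ p ∈ S, p ^ N : ℕ) : ℝ) ≤ R) :
    |(∫ τ in (0 : ℝ)..T, ‖DD β N S τ‖ ^ 2) - T * (N : ℝ) ^ S.card| ≤ 2 * R * ((N : ℝ) ^ S.card) ^ 2 := by
  obtain ⟨A, c, hcard, hc, hA, hD⟩ := DD_eq99 β (N := N) S hS
  have h1 := mean99 A (R := R) (fun n hn => ⟨(hA n hn).1, le_trans (by exact_mod_cast (hA n hn).2.1) hR⟩)
    c hc T
  simp only [← hD, hcard] at h1
  rwa [Nat.cast_pow] at h1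

theorem zz_DD99 (β : ℕ → ℝ) {N : ℕ} {S : Finset ℕ} {p : ℕ} (hp : p ∈ S) (τ : ℝ) :
    ‖zz β p τ - 1‖ ^ 2 * ‖DD β N S τ‖ ^ 2 ≤ 4 * ‖DD β N (S.erase p) τ‖ ^ 2 := by
  have h1 : DD β N S τ = (∑ a ∈ range N, zz β p τ ^ a) * DD β N (S.erase p) τ := by
    unfold DD
    rw [← Finset.mul_prod_erase S _ hp]
  have h2 : ‖zz β p τ - 1‖ * ‖∑ a ∈ range N, zz β p τ ^ a‖ ≤ 2 := by
    rw [← norm_mul, mul_comm, geom_sum_mul]
    refine (norm_sub_le _ _).trans ?_
    rw [norm_pow, norm_zz99, one_pow, norm_one]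
    norm_num
  rw [h1, norm_mul, ← mul_pow, ← mul_assoc, mul_pow]
  refine mul_le_mul_of_nonneg_right ?_ (sq_nonneg _)
  have h3 : 0 ≤ ‖zz β p τ - 1‖ * ‖∑ a ∈ range N, zz β p τ ^ a‖ := by positivity
  nlinarith

/-- **Kronecker's theorem, effective.** -/
theorem kron99 (S : Finset ℕ) (hS : ∀ p ∈ S, p.Prime) (β : ℕ → ℝ) {δ : ℝ} (hδ : 0 < δ) {N : ℕ}
    (hN : 8 * (S.card : ℝ) / δ ^ 2 ≤ N) (hN1 : 1 ≤ N) {R : ℝ} (hR : ((∏ p ∈ S, p ^ N : ℕ) : ℝ) ≤ R)
    {T : ℝ} (hT : 6 * R * (N : ℝ) ^ S.card < T) :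
    ∃ τ ∈ Set.Icc (0 : ℝ) T, ∀ p ∈ S, ‖zz β p τ - 1‖ ≤ δ := by
  classical
  by_contra hcon
  push Not at hcon
  have hR1 : 1 ≤ R := by
    refine le_trans ?_ hR
    have h1 : 0 < ∏ p ∈ S, p ^ N := Finset.prod_pos fun p hp => pow_pos (hS p hp).pos _
    exact_mod_cast h1
  have hN0 : (1 : ℝ) ≤ N := by exact_mod_cast hN1
  have hNk : (1 : ℝ) ≤ (N : ℝ) ^ S.card := one_le_pow₀ hN0
  have hT0 : 0 < T := lt_trans (by positivity) hT
  have hk : 0 < S.card := by
    obtain ⟨p, hp, -⟩ := hcon 0 ⟨le_refl _, hT0.le⟩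
    exact Finset.card_pos.2 ⟨p, hp⟩
  obtain ⟨k, hk'⟩ : ∃ k, S.card = k + 1 := ⟨S.card - 1, by omega⟩
  -- lower bound
  have hlow := (abs_le.1 (DD_mean99 β (N := N) S hS T hR)).1
  -- upper bound
  have hI : ∀ S' : Finset ℕ, IntervalIntegrable (fun τ => ‖DD β N S' τ‖ ^ 2) volume 0 T := fun S' =>
    (((continuous_DD99 β N S').norm).pow 2).intervalIntegrable _ _
  have hup : (∫ τ in (0 : ℝ)..T, ‖DD β N S τ‖ ^ 2) ≤
      ∑ p ∈ S, 4 / δ ^ 2 * ∫ τ in (0 : ℝ)..T, ‖DD β N (S.erase p) τ‖ ^ 2 := by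
    simp only [← intervalIntegral.integral_const_mul]
    rw [← intervalIntegral.integral_finsetSum fun p _ => (hI _).const_mul _]
    refine intervalIntegral.integral_mono_on hT0.le (hI S)
      (Continuous.intervalIntegrable (continuous_finsetSum _ fun p _ =>
        continuous_const.mul (((continuous_DD99 β N (S.erase p)).norm).pow 2)) _ _) fun τ hτ => ?_
    obtain ⟨p, hp, hpδ⟩ := hcon τ hτ
    have h1 := zz_DD99 β (N := N) hp τ
    have h2 : ‖DD β N S τ‖ ^ 2 ≤ 4 / δ ^ 2 * ‖DD β N (S.erase p) τ‖ ^ 2 := by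
      have h3 : δ ^ 2 ≤ ‖zz β p τ - 1‖ ^ 2 := pow_le_pow_left₀ hδ.le hpδ.le 2
      have h4 : δ ^ 2 * ‖DD β N S τ‖ ^ 2 ≤ 4 * ‖DD β N (S.erase p) τ‖ ^ 2 :=
        (mul_le_mul_of_nonneg_right h3 (sq_nonneg _)).trans h1
      rw [div_mul_eq_mul_div, le_div_iff₀ (by positivity)]
      linarith
    refine h2.trans ?_
    exact Finset.single_le_sum (f := fun p => 4 / δ ^ 2 * ‖DD β N (S.erase p) τ‖ ^ 2)
      (fun q _ => by positivity) hp
  have hbd : ∀ p ∈ S, (∫ τ in (0 : ℝ)..T, ‖DD β N (S.erase p) τ‖ ^ 2) ≤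
      T * (N : ℝ) ^ k + 2 * R * ((N : ℝ) ^ k) ^ 2 := by
    intro p hp
    have hc : (S.erase p).card = k := by rw [Finset.card_erase_of_mem hp, hk']; rfl
    have h1 := (abs_le.1 (DD_mean99 β (N := N) (S.erase p) (fun q hq => hS q (Finset.mem_of_mem_erase hq)) T
      (R := R) (by
        refine le_trans ?_ hR
        have h2 : ∏ q ∈ S.erase p, q ^ N ≤ ∏ q ∈ S, q ^ N := by
          rw [← Finset.mul_prod_erase S _ hp]
          exact Nat.le_mul_of_pos_left _ (pow_pos (hS p hp).pos _)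
        exact_mod_cast h2))).2
    rw [hc] at h1
    linarith
  have hsum : (∑ p ∈ S, 4 / δ ^ 2 * ∫ τ in (0 : ℝ)..T, ‖DD β N (S.erase p) τ‖ ^ 2) ≤
      S.card * (4 / δ ^ 2 * (T * (N : ℝ) ^ k + 2 * R * ((N : ℝ) ^ k) ^ 2)) := by
    rw [← nsmul_eq_mul]
    refine Finset.sum_le_card_nsmul _ _ _ fun p hp => ?_
    exact mul_le_mul_of_nonneg_left (hbd p hp) (by positivity)
  have hN2 : (S.card : ℝ) * (4 / δ ^ 2) ≤ N / 2 := by
    have e : (S.card : ℝ) * (4 / δ ^ 2) = 8 * (S.card : ℝ) / δ ^ 2 / 2 := by ring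
    rw [e]
    linarith
  have hNkp : (0 : ℝ) ≤ (N : ℝ) ^ k := by positivity
  have h5 : (S.card : ℝ) * (4 / δ ^ 2 * (T * (N : ℝ) ^ k + 2 * R * ((N : ℝ) ^ k) ^ 2)) ≤
      N / 2 * (T * (N : ℝ) ^ k + 2 * R * ((N : ℝ) ^ k) ^ 2) := by
    rw [← mul_assoc]
    exact mul_le_mul_of_nonneg_right hN2 (by positivity)
  have e1 : (N : ℝ) ^ S.card = N * (N : ℝ) ^ k := by rw [hk', pow_succ, mul_comm]
  rw [e1] at hlow hT
  have hM : (1 : ℝ) ≤ (N : ℝ) ^ k := one_le_pow₀ hN0
  set M : ℝ := (N : ℝ) ^ k with hMdef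
  -- T N M - 2 R (N M)^2 ≤ N/2 (T M + 2 R M^2)
  have h6 : T * (N * M) - 2 * R * (N * M) ^ 2 ≤ N / 2 * (T * M + 2 * R * M ^ 2) := by linarith
  have h7 : T * (N * M) / 2 ≤ 2 * R * (N * M) ^ 2 + R * (N * M ^ 2) := by nlinarith
  have h8 : R * (N * M ^ 2) ≤ R * (N * M) ^ 2 := by
    refine mul_le_mul_of_nonneg_left ?_ (by linarith)
    have : (N : ℝ) * M ^ 2 ≤ N ^ 2 * M ^ 2 := by
      refine mul_le_mul_of_nonneg_right ?_ (sq_nonneg _)
      nlinarith
    calc (N : ℝ) * M ^ 2 ≤ N ^ 2 * M ^ 2 := this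
      _ = (N * M) ^ 2 := by ring
  have hNM : 0 < (N : ℝ) * M := by positivity
  have h9 : T * (N * M) ≤ (6 * R * (N * M)) * (N * M) := by nlinarith
  have h10 : T ≤ 6 * R * (N * M) := le_of_mul_le_mul_right h9 hNM
  linarith

/-- **Kronecker's theorem for the primes up to `X`**, with `τ ≤ exp (X ^ 9)`. -/
theorem kron_eff : ∃ X₀ : ℕ, ∀ X : ℕ, X₀ ≤ X → ∀ β : ℕ → ℝ, ∃ τ : ℝ, 0 ≤ τ ∧
    τ ≤ Real.exp ((X : ℝ) ^ 9) ∧ ∀ p : ℕ, p.Prime → p ≤ X → ‖zz β p τ - 1‖ ≤ 1 / (X : ℝ) ^ 3 := by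
  classical
  refine ⟨32, fun X hX β => ?_⟩
  have hX0 : (32 : ℝ) ≤ X := by exact_mod_cast hX
  have hXpos : (0 : ℝ) < X := by linarith
  set S : Finset ℕ := (range (X + 1)).filter Nat.Prime with hSdef
  have hS : ∀ p ∈ S, p.Prime := fun p hp => (Finset.mem_filter.1 hp).2
  have hcard : S.card ≤ X := by
    have h1 : S ⊆ Finset.Icc 1 X := by
      intro p hp
      obtain ⟨h1, h2⟩ := Finset.mem_filter.1 hp
      rw [Finset.mem_Icc]
      exact ⟨h2.one_lt.le, by have := Finset.mem_range.1 h1; omega⟩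
    have := Finset.card_le_card h1
    rwa [Nat.card_Icc, Nat.add_sub_cancel] at this
  set N : ℕ := 8 * X ^ 7 with hNdef
  have hN1 : 1 ≤ N := by
    have : 0 < X ^ 7 := pow_pos (by omega) _
    omega
  have hprod : ∏ p ∈ S, p ^ N ≤ 4 ^ (X * N) := by
    have h1 : ∏ p ∈ S, p ^ N = primorial X ^ N := Finset.prod_pow S N _
    have h2 : (4 : ℕ) ^ (X * N) = (4 ^ X) ^ N := pow_mul 4 X N
    rw [h1, h2]
    exact Nat.pow_le_pow_left (primorial_le_four_pow X) _
  obtain ⟨τ, hτ, hτ'⟩ := kron99 S hS β (δ := 1 / (X : ℝ) ^ 3) (by positivity) (N := N) (by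
      rw [hNdef]
      push_cast
      have h1 : (S.card : ℝ) ≤ X := by exact_mod_cast hcard
      have e : 8 * (S.card : ℝ) / (1 / (X : ℝ) ^ 3) ^ 2 = 8 * S.card * X ^ 6 := by
        field_simp
      rw [e]
      calc 8 * (S.card : ℝ) * X ^ 6 ≤ 8 * X * X ^ 6 := by gcongr
        _ = 8 * (X : ℝ) ^ 7 := by ring) hN1 (R := (4 : ℝ) ^ (X * N)) (by exact_mod_cast hprod)
    (T := Real.exp ((X : ℝ) ^ 9)) (by
      have hNe : (N : ℝ) = 8 * (X : ℝ) ^ 7 := by rw [hNdef]; push_cast; ring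
      have h4 : (4 : ℝ) ≤ Real.exp 2 := by
        have := Real.add_one_le_exp (1 : ℝ)
        have e : Real.exp 2 = Real.exp 1 * Real.exp 1 := by rw [← Real.exp_add]; norm_num
        rw [e]
        nlinarith [Real.exp_pos (1 : ℝ)]
      have h5 : (4 : ℝ) ^ (X * N) ≤ Real.exp (16 * (X : ℝ) ^ 8) := by
        calc (4 : ℝ) ^ (X * N) ≤ Real.exp 2 ^ (X * N) := pow_le_pow_left₀ (by norm_num) h4 _
          _ = Real.exp (16 * (X : ℝ) ^ 8) := by
              rw [← Real.exp_nat_mul]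
              congr 1
              push_cast
              rw [hNe]
              ring
      have h6 : (N : ℝ) ≤ Real.exp (X : ℝ) ^ 9 := by
        have h7 : (X : ℝ) ≤ Real.exp X := by linarith [Real.add_one_le_exp (X : ℝ)]
        have h8 : (8 : ℝ) ≤ X ^ 2 := by nlinarith
        calc (N : ℝ) = 8 * (X : ℝ) ^ 7 := hNe
          _ ≤ (X : ℝ) ^ 2 * X ^ 7 := by gcongr
          _ = (X : ℝ) ^ 9 := by ring
          _ ≤ Real.exp X ^ 9 := by gcongr
      have h7 : (N : ℝ) ^ S.card ≤ Real.exp (9 * (X : ℝ) ^ 2) := by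
        calc (N : ℝ) ^ S.card ≤ (N : ℝ) ^ X := pow_le_pow_right₀ (by exact_mod_cast hN1) hcard
          _ ≤ (Real.exp (X : ℝ) ^ 9) ^ X := by gcongr
          _ = Real.exp (9 * (X : ℝ) ^ 2) := by
              rw [← Real.exp_nat_mul, ← Real.exp_nat_mul]
              congr 1
              push_cast
              ring
      have h8 : (6 : ℝ) ≤ Real.exp 4 := by
        have e : Real.exp 4 = Real.exp 2 * Real.exp 2 := by rw [← Real.exp_add]; norm_num
        rw [e]
        nlinarith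
      calc 6 * (4 : ℝ) ^ (X * N) * (N : ℝ) ^ S.card
          ≤ Real.exp 4 * Real.exp (16 * (X : ℝ) ^ 8) * Real.exp (9 * (X : ℝ) ^ 2) := by gcongr
        _ = Real.exp (4 + 16 * (X : ℝ) ^ 8 + 9 * (X : ℝ) ^ 2) := by rw [Real.exp_add, Real.exp_add]
        _ < Real.exp ((X : ℝ) ^ 9) := by
            rw [Real.exp_lt_exp]
            have e1 : (X : ℝ) ^ 9 = X * X ^ 8 := by ring
            have e2 : (X : ℝ) ^ 8 = X ^ 6 * X ^ 2 := by ring
            have h9 : (1 : ℝ) ≤ X ^ 6 := one_le_pow₀ (by linarith)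
            have h10 : (1 : ℝ) ≤ X ^ 2 := one_le_pow₀ (by linarith)
            have h11 : (X : ℝ) ^ 2 ≤ X ^ 8 := by rw [e2]; nlinarith
            have h12 : (1 : ℝ) ≤ X ^ 8 := one_le_pow₀ (by linarith)
            rw [e1]
            nlinarith)
  refine ⟨τ, hτ.1, hτ.2, fun p hp hpX => hτ' p ?_⟩
  exact Finset.mem_filter.2 ⟨Finset.mem_range.2 (by omega), hp⟩

end Pool.Agent.Helper99.IT
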