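import Pool.Agent.Helper99.IT.RecB

open Complex Filter Topology MeasureTheory Set
open Pool.Agent.Helper57.Zeta
open Pool.Agent.Helper71.MR
open Pool.Agent.Helper18.ES (S mu mu_le)

namespace Pool.Agent.Helper99.IT

/-- partial integration against an oscillation: a function whose increments are at most L times those of exp(-w) -/
theorem tv99 {R : ℝ → ℝ} {L : ℝ} (hL : 0 ≤ L) (hR : ∀ a b : ℝ, 0 ≤ a → 0 ≤ b → |R a - R b| ≤ L * |Real.exp (-a) - Real.exp (-b)|)
    (θ : ℝ) {u : ℝ} (hu : 0 ≤ u) :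
    ‖(R u : ℂ) * cexp (-(I * θ * u)) - R 0 + I * θ * ∫ w in (0:ℝ)..u, (R w : ℂ) * cexp (-(I * θ * w))‖ ≤
      2 * (L * Real.exp 1) := by
  have hex : ∀ a b : ℝ, 0 ≤ a → 0 ≤ b → |Real.exp (-a) - Real.exp (-b)| ≤ |a - b| := by
    intro a b ha hb
    wlog hab : a ≤ b generalizing a b with H
    · have := H b a hb ha (le_of_not_ge hab)
      rwa [abs_sub_comm, abs_sub_comm a b]
    have h1 : Real.exp (-b) ≤ Real.exp (-a) := Real.exp_le_exp.mpr (by linarith)
    rw [abs_of_nonneg (by linarith), abs_sub_comm, abs_of_nonneg (by linarith)]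
    have h2 : Real.exp (-b) = Real.exp (-a) * Real.exp (-(b - a)) := by rw [← Real.exp_add]; congr 1; ring
    have h3 := Real.add_one_le_exp (-(b - a))
    have h4 : Real.exp (-a) ≤ 1 := Real.exp_le_one_iff.mpr (by linarith)
    have h5 := Real.exp_pos (-a)
    rw [h2]
    nlinarith
  have hac : AbsolutelyContinuousOnInterval R 0 u := by
    apply LipschitzOnWith.absolutelyContinuousOnInterval (K := L.toNNReal)
    rw [uIcc_of_le hu]
    apply LipschitzOnWith.of_dist_le_mul
    intro a ha b hb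
    rw [Real.dist_eq, Real.dist_eq, Real.coe_toNNReal _ hL]
    exact (hR a b ha.1 hb.1).trans (mul_le_mul_of_nonneg_left (hex a b ha.1 hb.1) hL)
  have hd : ∀ w, 0 < w → |deriv R w| ≤ L * Real.exp 1 * Real.exp (-w) := by
    intro w hw
    rw [← Real.norm_eq_abs]
    apply norm_deriv_le_of_lip' (by positivity)
    have h1 : ∀ᶠ x in 𝓝 w, x ∈ Ioo (max 0 (w - 1)) (w + 1) := by
      apply Ioo_mem_nhds
      · exact max_lt hw (by linarith)
      · linarith
    filter_upwards [h1] with x hx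
    have hx0 : 0 < x := (le_max_left _ _).trans_lt hx.1
    have hx1 : w - 1 < x := (le_max_right _ _).trans_lt hx.1
    rw [Real.norm_eq_abs, Real.norm_eq_abs]
    refine (hR x w hx0.le hw.le).trans ?_
    rw [mul_assoc, mul_assoc]
    apply mul_le_mul_of_nonneg_left _ hL
    -- |e^-x - e^-w| <= e e^-w |x - w|
    rcases le_total x w with hxw | hxw
    · have e1 : Real.exp (-x) = Real.exp (-w) * Real.exp (w - x) := by rw [← Real.exp_add]; congr 1; ring
      have e2 : Real.exp (-w) ≤ Real.exp (-x) := Real.exp_le_exp.mpr (by linarith)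
      rw [abs_of_nonneg (by linarith), abs_sub_comm, abs_of_nonneg (by linarith)]
      have e3 : Real.exp (w - x) - 1 ≤ Real.exp 1 * (w - x) := by
        have h6 : Real.exp (w - x) ≤ Real.exp 1 := Real.exp_le_exp.mpr (by linarith)
        have h7 := Real.add_one_le_exp (-(w - x))
        have h8 : Real.exp (w - x) * Real.exp (-(w - x)) = 1 := by
          rw [← Real.exp_add, add_neg_cancel, Real.exp_zero]
        have h9 := Real.exp_pos (w - x)
        nlinarith
      have h5 := Real.exp_pos (-w)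
      rw [e1]
      nlinarith
    · have e1 : Real.exp (-x) = Real.exp (-w) * Real.exp (w - x) := by rw [← Real.exp_add]; congr 1; ring
      have e2 : Real.exp (-x) ≤ Real.exp (-w) := Real.exp_le_exp.mpr (by linarith)
      rw [abs_sub_comm, abs_of_nonneg (by linarith), abs_of_nonneg (by linarith)]
      have h7 := Real.add_one_le_exp (w - x)
      have h5 := Real.exp_pos (-w)
      have h6 : (1:ℝ) ≤ Real.exp 1 := Real.one_le_exp zero_le_one
      rw [e1]
      nlinarith [mul_nonneg h5.le (sub_nonneg.mpr hxw), mul_nonneg (mul_nonneg h5.le (sub_nonneg.mpr hxw)) (sub_nonneg.mpr h6)]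
  have hbd : ∀ g : ℝ → ℝ, (∀ x, |g x| ≤ 1) → |∫ x in (0:ℝ)..u, deriv R x * g x| ≤ L * Real.exp 1 := by
    intro g hg
    rw [← Real.norm_eq_abs]
    have h1 : ‖∫ x in (0:ℝ)..u, deriv R x * g x‖ ≤ ∫ x in (0:ℝ)..u, L * Real.exp 1 * Real.exp (-x) := by
      apply intervalIntegral.norm_integral_le_of_norm_le hu
      · apply Filter.Eventually.of_forall
        intro t ht
        rw [norm_mul, Real.norm_eq_abs, Real.norm_eq_abs]
        have h2 := hd t ht.1
        have h3 := hg t
        nlinarith [abs_nonneg (deriv R t), abs_nonneg (g t)]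
      · apply Continuous.intervalIntegrable
        fun_prop
    refine h1.trans ?_
    rw [intervalIntegral.integral_const_mul]
    have h4 : ∫ x in (0:ℝ)..u, Real.exp (-x) ≤ 1 := by
      rw [intervalIntegral.integral_comp_neg (fun x => Real.exp x), integral_exp, neg_zero, Real.exp_zero]
      linarith [Real.exp_pos (-u)]
    have h5 : 0 ≤ L * Real.exp 1 := by positivity
    nlinarith
  have hcos : AbsolutelyContinuousOnInterval (fun w => Real.cos (θ * w)) 0 u := by
    apply ContDiffOn.absolutelyContinuousOnInterval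
    apply ContDiff.contDiffOn
    fun_prop
  have hsin : AbsolutelyContinuousOnInterval (fun w => Real.sin (θ * w)) 0 u := by
    apply ContDiffOn.absolutelyContinuousOnInterval
    apply ContDiff.contDiffOn
    fun_prop
  have p1 := hac.integral_mul_deriv_eq_deriv_mul hcos
  have p2 := hac.integral_mul_deriv_eq_deriv_mul hsin
  have d1 : ∀ x : ℝ, deriv (fun w => Real.cos (θ * w)) x = -(θ * Real.sin (θ * x)) := by
    intro x
    have h := (Real.hasDerivAt_cos (θ * x)).comp x ((hasDerivAt_id x).const_mul θ)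
    have h2 : HasDerivAt (fun w => Real.cos (θ * w)) (-Real.sin (θ * x) * (θ * 1)) x := h
    rw [h2.deriv]; ring
  have d2 : ∀ x : ℝ, deriv (fun w => Real.sin (θ * w)) x = θ * Real.cos (θ * x) := by
    intro x
    have h := (Real.hasDerivAt_sin (θ * x)).comp x ((hasDerivAt_id x).const_mul θ)
    have h2 : HasDerivAt (fun w => Real.sin (θ * w)) (Real.cos (θ * x) * (θ * 1)) x := h
    rw [h2.deriv]; ring
  simp only [d1, mul_zero, Real.cos_zero, mul_one] at p1
  simp only [d2, mul_zero, Real.sin_zero, sub_zero] at p2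
  have hcont : ContinuousOn R (uIcc 0 u) := hac.continuousOn
  have q1 : ∫ x in (0:ℝ)..u, R x * -(θ * Real.sin (θ * x)) = -(θ * ∫ x in (0:ℝ)..u, R x * Real.sin (θ * x)) := by
    rw [← intervalIntegral.integral_const_mul, ← intervalIntegral.integral_neg]
    apply intervalIntegral.integral_congr
    intro x _
    show R x * -(θ * Real.sin (θ * x)) = -(θ * (R x * Real.sin (θ * x)))
    ring
  have q2 : ∫ x in (0:ℝ)..u, R x * (θ * Real.cos (θ * x)) = θ * ∫ x in (0:ℝ)..u, R x * Real.cos (θ * x) := by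
    rw [← intervalIntegral.integral_const_mul]
    apply intervalIntegral.integral_congr
    intro x _
    show R x * (θ * Real.cos (θ * x)) = θ * (R x * Real.cos (θ * x))
    ring
  rw [q1] at p1
  rw [q2] at p2
  have hsplit : ∫ w in (0:ℝ)..u, (R w : ℂ) * cexp (-(I * θ * w)) =
      ((∫ x in (0:ℝ)..u, R x * Real.cos (θ * x) : ℝ) : ℂ) - I * ((∫ x in (0:ℝ)..u, R x * Real.sin (θ * x) : ℝ) : ℂ) := by
    rw [← intervalIntegral.integral_ofReal, ← intervalIntegral.integral_ofReal, ← intervalIntegral.integral_const_mul,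
      ← intervalIntegral.integral_sub]
    · apply intervalIntegral.integral_congr
      intro x _
      show (R x : ℂ) * cexp (-(I * θ * x)) = ((R x * Real.cos (θ * x) : ℝ) : ℂ) - I * ((R x * Real.sin (θ * x) : ℝ) : ℂ)
      rw [show -(I * θ * x) = ((-(θ * x) : ℝ) : ℂ) * I by push_cast; ring, Complex.exp_mul_I]
      rw [← Complex.ofReal_cos, ← Complex.ofReal_sin, Real.cos_neg, Real.sin_neg]
      push_cast
      ring
    · apply ContinuousOn.intervalIntegrable
      apply Complex.continuous_ofReal.comp_continuousOn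
      apply hcont.mul
      fun_prop
    · apply ContinuousOn.intervalIntegrable
      apply ContinuousOn.mul continuousOn_const
      apply Complex.continuous_ofReal.comp_continuousOn
      apply hcont.mul
      fun_prop
  have hend : (R u : ℂ) * cexp (-(I * θ * u)) = ((R u * Real.cos (θ * u) : ℝ) : ℂ) - I * ((R u * Real.sin (θ * u) : ℝ) : ℂ) := by
    rw [show -(I * θ * u) = ((-(θ * u) : ℝ) : ℂ) * I by push_cast; ring, Complex.exp_mul_I]
    rw [← Complex.ofReal_cos, ← Complex.ofReal_sin, Real.cos_neg, Real.sin_neg]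
    push_cast
    ring
  rw [hsplit, hend]
  have hfin : ((R u * Real.cos (θ * u) : ℝ) : ℂ) - I * ((R u * Real.sin (θ * u) : ℝ) : ℂ) - R 0 +
      I * θ * (((∫ x in (0:ℝ)..u, R x * Real.cos (θ * x) : ℝ) : ℂ) - I * ((∫ x in (0:ℝ)..u, R x * Real.sin (θ * x) : ℝ) : ℂ)) =
      ((∫ x in (0:ℝ)..u, deriv R x * Real.cos (θ * x) : ℝ) : ℂ) - I * ((∫ x in (0:ℝ)..u, deriv R x * Real.sin (θ * x) : ℝ) : ℂ) := by
    have r1 : ∫ x in (0:ℝ)..u, deriv R x * Real.cos (θ * x) = R u * Real.cos (θ * u) - R 0 + θ * ∫ x in (0:ℝ)..u, R x * Real.sin (θ * x) := by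
      linarith
    have r2 : ∫ x in (0:ℝ)..u, deriv R x * Real.sin (θ * x) = R u * Real.sin (θ * u) - θ * ∫ x in (0:ℝ)..u, R x * Real.cos (θ * x) := by
      linarith
    rw [r1, r2]
    push_cast
    have hI : I * I = -1 := Complex.I_mul_I
    linear_combination (-(θ : ℂ) * ((∫ x in (0:ℝ)..u, R x * Real.sin (θ * x) : ℝ) : ℂ)) * hI
  rw [hfin]
  refine (norm_sub_le _ _).trans ?_
  rw [norm_mul, Complex.norm_I, one_mul, Complex.norm_real, Complex.norm_real, Real.norm_eq_abs, Real.norm_eq_abs]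
  have b1 := hbd (fun x => Real.cos (θ * x)) (fun x => Real.abs_cos_le_one _)
  have b2 := hbd (fun x => Real.sin (θ * x)) (fun x => Real.abs_sin_le_one _)
  linarith

/-- the constant of the remainder -/
noncomputable def CR : ℝ := 2 * ((2 * (2 * Real.pi * ∑' k : ℕ, 1 / (k : ℝ) ^ 2)) * Real.exp 1)

theorem CR_nonneg : 0 ≤ CR := by
  unfold CR
  have : 0 ≤ ∑' k : ℕ, 1 / (k : ℝ) ^ 2 := tsum_nonneg (fun k => by positivity)
  positivity

theorem rr_part99 {K : ℝ} (hK : ∀ t, |rr t| ≤ K) (θ : ℝ) {u : ℝ} (hu : 0 ≤ u) :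
    ‖FF rr θ u‖ ≤ Real.exp (-u / 2) * (‖FF rr θ 0‖ + CR) := by
  set c : ℂ := I * θ - 1 / 2 with hc
  set R : ℝ → ℝ := fun w => rr w * Real.exp (w / 2) with hR
  have hRe : ∀ w, R w = 2 - 2 * Qf (Real.exp (-w)) := by
    intro w
    simp only [hR]
    unfold rr
    rw [mul_assoc, ← Real.exp_add, show -w / 2 + w / 2 = 0 by ring, Real.exp_zero, mul_one]
  have hT0 : 0 ≤ ∑' k : ℕ, 1 / (k : ℝ) ^ 2 := tsum_nonneg (fun k => by positivity)
  have hR2 : ∀ a b : ℝ, 0 ≤ a → 0 ≤ b → |R a - R b| ≤ (2 * (2 * Real.pi * ∑' k : ℕ, 1 / (k : ℝ) ^ 2)) *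
      |Real.exp (-a) - Real.exp (-b)| := by
    intro a b _ _
    rw [hRe, hRe, show 2 - 2 * Qf (Real.exp (-a)) - (2 - 2 * Qf (Real.exp (-b))) =
      -(2 * (Qf (Real.exp (-a)) - Qf (Real.exp (-b)))) by ring, abs_neg, abs_mul, abs_of_pos (by norm_num : (0:ℝ) < 2)]
    have := Qf_lip (Real.exp_pos (-a)).le (Real.exp_pos (-b)).le
    nlinarith
  have htv := tv99 (by positivity) hR2 θ hu
  have hexp : ∀ w : ℝ, (rr w : ℂ) * cexp (-(c * w)) = (R w : ℂ) * cexp (-(I * θ * w)) := by
    intro w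
    simp only [hR, hc]
    push_cast
    rw [mul_assoc, ← Complex.exp_add]
    congr 2
    ring
  have hrm : Measurable rr := rr_meas
  have hid : FF rr θ u = cexp (c * u) * (FF rr θ 0 + ((R u : ℂ) * cexp (-(I * θ * u)) - R 0 +
      I * θ * ∫ w in (0:ℝ)..u, (R w : ℂ) * cexp (-(I * θ * w)))) := by
    rw [FF_eq99, FF_eq99]
    have h1 := intervalIntegral.integral_Iic_sub_Iic (iic_int99 hrm hK θ 0) (iic_int99 hrm hK θ u)
    simp only [← hc] at h1 ⊢
    have h2 : ∫ w in (0:ℝ)..u, (rr w : ℂ) * cexp (-(c * w)) = ∫ w in (0:ℝ)..u, (R w : ℂ) * cexp (-(I * θ * w)) := by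
      apply intervalIntegral.integral_congr
      intro w _
      exact hexp w
    rw [h2] at h1
    have h3 : ∫ w in Iic u, (rr w : ℂ) * cexp (-(c * w)) = (∫ w in Iic (0:ℝ), (rr w : ℂ) * cexp (-(c * w))) +
        ∫ w in (0:ℝ)..u, (R w : ℂ) * cexp (-(I * θ * w)) := by rw [← h1]; ring
    rw [h3, ← hexp u]
    have h4 : R 0 = rr 0 := by simp [hR]
    have h5 : cexp (c * u) * cexp (-(c * u)) = 1 := by rw [← Complex.exp_add, add_neg_cancel, Complex.exp_zero]
    rw [h4, Complex.ofReal_zero, mul_zero, Complex.exp_zero]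
    linear_combination (-(rr u : ℂ)) * h5
  rw [hid, norm_mul]
  have h6 : ‖cexp (c * u)‖ = Real.exp (-u / 2) := by
    rw [hc, norm_ker99]; congr 1; ring
  rw [h6]
  apply mul_le_mul_of_nonneg_left _ (Real.exp_pos _).le
  refine (norm_add_le _ _).trans ?_
  unfold CR
  linarith

/-- the twisted Mertens function -/
noncomputable def MT (θ x : ℝ) : ℂ :=
  ∑ n ∈ Finset.Icc 1 ⌊x⌋₊, (ArithmeticFunction.moebius n : ℂ) * (n : ℂ) ^ (-(θ : ℂ) * I)

theorem mm_neg99 {w : ℝ} (hw : w < 0) : mm w = 0 := by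
  unfold mm S
  have h1 : Real.exp w < 1 := by rw [← Real.exp_zero]; exact Real.exp_lt_exp.mpr hw
  have h2 : ⌊Real.exp w⌋₊ = 0 := Nat.floor_eq_zero.mpr h1
  rw [h2]
  simp

theorem mm_part99 {K : ℝ} (hK : ∀ t, |mm t| ≤ K) (θ : ℝ) {u : ℝ} (hu : 0 ≤ u) :
    FF mm θ u = cexp ((I * θ - 1 / 2) * u) * MT θ (Real.exp u) := by
  set c : ℂ := I * θ - 1 / 2 with hc
  have hexp : ∀ w : ℝ, (mm w : ℂ) * cexp (-(c * w)) = (S mu (Real.exp w) : ℂ) * cexp (-(I * θ * w)) := by
    intro w
    simp only [hc]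
    unfold mm
    push_cast
    rw [mul_assoc, ← Complex.exp_add]
    congr 2
    ring
  have hf1 : ∀ t : ℝ, t ∈ Icc 1 (Real.exp u) → HasDerivAt (fun t : ℝ => cexp (-(I * θ * (Real.log t : ℂ))))
      (cexp (-(I * θ * (Real.log t : ℂ))) * (-(I * θ * (t : ℂ)⁻¹))) t := by
    intro t ht
    have ht0 : t ≠ 0 := by linarith [ht.1]
    have h1 := (Real.hasDerivAt_log ht0).ofReal_comp
    have h2 := ((h1.const_mul (I * θ)).neg).cexp
    push_cast at h2
    exact h2
  have hA := sum_mul_eq_sub_integral_mul₀ (𝕜 := ℂ) (fun n => (ArithmeticFunction.moebius n : ℂ)) (by simp)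
    (f := fun t : ℝ => cexp (-(I * θ * (Real.log t : ℂ)))) (Real.exp u) (fun t ht => (hf1 t ht).differentiableAt) (by
      have hcont : ContinuousOn (fun t : ℝ => cexp (-(I * θ * (Real.log t : ℂ))) * (-(I * θ * (t : ℂ)⁻¹))) (Icc 1 (Real.exp u)) := by
        have hl : ContinuousOn Real.log (Icc 1 (Real.exp u)) := by
          apply Real.continuousOn_log.mono
          intro x hx
          have : x ≠ 0 := by linarith [hx.1]
          exact this
        have hl2 : ContinuousOn (fun t : ℝ => (Real.log t : ℂ)) (Icc 1 (Real.exp u)) :=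
          Complex.continuous_ofReal.comp_continuousOn hl
        have hl3 : ContinuousOn (fun t : ℝ => (t : ℂ)⁻¹) (Icc 1 (Real.exp u)) := by
          apply ContinuousOn.inv₀
          · exact Complex.continuous_ofReal.continuousOn
          · intro x hx
            have : x ≠ 0 := by linarith [hx.1]
            exact_mod_cast this
        fun_prop
      refine (hcont.integrableOn_compact isCompact_Icc).congr_fun ?_ measurableSet_Icc
      intro t ht
      exact (hf1 t ht).deriv.symm)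
  have hsumI : ∀ x : ℝ, (∑ k ∈ Finset.Icc 0 ⌊x⌋₊, (ArithmeticFunction.moebius k : ℂ)) = (S mu x : ℂ) := by
    intro x
    unfold S mu
    push_cast
    rw [← Finset.sum_subset (s₁ := Finset.Icc 1 ⌊x⌋₊) (s₂ := Finset.Icc 0 ⌊x⌋₊)]
    · exact Finset.Icc_subset_Icc_left (Nat.zero_le _)
    · intro k hk1 hk2
      have h0 : k = 0 := by
        by_contra h
        apply hk2
        rw [Finset.mem_Icc] at hk1 ⊢
        exact ⟨Nat.one_le_iff_ne_zero.mpr h, hk1.2⟩
      rw [h0]; simp
  have hL : MT θ (Real.exp u) = ∑ k ∈ Finset.Icc 0 ⌊Real.exp u⌋₊, cexp (-(I * θ * (Real.log (k : ℝ) : ℂ))) * (ArithmeticFunction.moebius k : ℂ) := by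
    unfold MT
    rw [← Finset.sum_subset (s₁ := Finset.Icc 1 ⌊Real.exp u⌋₊) (s₂ := Finset.Icc 0 ⌊Real.exp u⌋₊)]
    · apply Finset.sum_congr rfl
      intro k hk
      have hk0 : (k : ℂ) ≠ 0 := by
        have := (Finset.mem_Icc.mp hk).1
        exact_mod_cast (by omega : k ≠ 0)
      rw [Complex.cpow_def_of_ne_zero hk0, mul_comm]
      congr 2
      rw [← Complex.natCast_log]
      ring
    · exact Finset.Icc_subset_Icc_left (Nat.zero_le _)
    · intro k hk1 hk2
      have h0 : k = 0 := by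
        by_contra h
        apply hk2
        rw [Finset.mem_Icc] at hk1 ⊢
        exact ⟨Nat.one_le_iff_ne_zero.mpr h, hk1.2⟩
      rw [h0]; simp
  rw [← hL] at hA
  simp only [hsumI] at hA
  -- change of variables
  have hcv : ∫ t in Ioc 1 (Real.exp u), deriv (fun t : ℝ => cexp (-(I * θ * (Real.log t : ℂ)))) t * (S mu t : ℂ) =
      -(I * θ * ∫ w in (0:ℝ)..u, (S mu (Real.exp w) : ℂ) * cexp (-(I * θ * w))) := by
    have h := integral_image_eq_integral_abs_deriv_smul (s := Ioc 0 u) (f := Real.exp) (f' := Real.exp)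
      measurableSet_Ioc (fun x _ => (Real.hasDerivAt_exp x).hasDerivWithinAt)
      (Real.exp_injective.injOn) (fun t => deriv (fun t : ℝ => cexp (-(I * θ * (Real.log t : ℂ)))) t * (S mu t : ℂ))
    have himg : Real.exp '' Ioc 0 u = Ioc 1 (Real.exp u) := by
      ext x
      constructor
      · rintro ⟨y, hy, rfl⟩
        exact ⟨Real.one_lt_exp_iff.mpr hy.1, Real.exp_le_exp.mpr hy.2⟩
      · intro hx
        have hx0 : 0 < x := by linarith [hx.1]
        refine ⟨Real.log x, ⟨Real.log_pos hx.1, ?_⟩, Real.exp_log hx0⟩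
        rw [Real.log_le_iff_le_exp hx0]
        exact hx.2
    rw [himg] at h
    rw [h, intervalIntegral.integral_of_le hu, ← integral_const_mul, ← integral_neg]
    apply setIntegral_congr_fun measurableSet_Ioc
    intro w hw
    have hmem : Real.exp w ∈ Icc 1 (Real.exp u) := ⟨Real.one_le_exp hw.1.le, Real.exp_le_exp.mpr hw.2⟩
    simp only
    rw [(hf1 _ hmem).deriv, abs_of_pos (Real.exp_pos _), Real.log_exp, Complex.real_smul]
    have hne : ((Real.exp w : ℝ) : ℂ) ≠ 0 := by exact_mod_cast (Real.exp_pos w).ne'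
    field_simp
  rw [hcv, Real.log_exp] at hA
  rw [FF_eq99]
  simp only [← hc]
  have hmeas : Measurable mm := mm_meas
  have h1 := intervalIntegral.integral_Iic_sub_Iic (iic_int99 hmeas hK θ 0) (iic_int99 hmeas hK θ u)
  simp only [← hc] at h1
  have h0 : ∫ w in Iic (0:ℝ), (mm w : ℂ) * cexp (-(c * w)) = 0 := by
    rw [integral_Iic_eq_integral_Iio]
    rw [setIntegral_congr_fun (g := fun _ => (0:ℂ)) measurableSet_Iio]
    · simp
    · intro w hw
      show (mm w : ℂ) * cexp (-(c * w)) = 0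
      rw [mm_neg99 hw]; simp
  have h2 : ∫ w in (0:ℝ)..u, (mm w : ℂ) * cexp (-(c * w)) = ∫ w in (0:ℝ)..u, (S mu (Real.exp w) : ℂ) * cexp (-(I * θ * w)) := by
    apply intervalIntegral.integral_congr
    intro w _
    exact hexp w
  rw [h0, sub_zero, h2] at h1
  rw [h1, hA]
  have h5 : cexp (c * u) * cexp (-(c * u)) = 1 := by rw [← Complex.exp_add, add_neg_cancel, Complex.exp_zero]
  have h6 := hexp u
  linear_combination (cexp (c * u)) * h6 - (mm u : ℂ) * h5

theorem FF_add99 {f g : ℝ → ℝ} (hf : Measurable f) (hg : Measurable g) {K K' : ℝ} (hK : ∀ t, |f t| ≤ K)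
    (hK' : ∀ t, |g t| ≤ K') (θ u : ℝ) : FF (fun t => f t + g t) θ u = FF f θ u + FF g θ u := by
  unfold FF
  have h1 : ∫ v in Ioi (0:ℝ), ((f (u - v) + g (u - v) : ℝ) : ℂ) * cexp ((I * θ - 1 / 2) * v) =
      (∫ v in Ioi (0:ℝ), (f (u - v) : ℂ) * cexp ((I * θ - 1 / 2) * v)) +
      ∫ v in Ioi (0:ℝ), (g (u - v) : ℂ) * cexp ((I * θ - 1 / 2) * v) := by
    rw [← integral_add (conv_int99 hf hK θ u) (conv_int99 hg hK' θ u)]
    apply integral_congr_ae
    filter_upwards with v
    push_cast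
    ring
  rw [h1]
  push_cast
  ring

/-- Recurrence for the twisted Mertens functions: if M(x) = O(x^(1/2)), then for every real theta an eventual
bound B for |M_theta(x)| / x^(1/2) gives |M_theta(x)| ≤ B x^(1/2) + (B + 1 + CR) for all x ≥ 1. -/
theorem rec_M99 {K : ℝ} (hK : ∀ x : ℝ, 1 ≤ x → |S mu x| ≤ K * Real.sqrt x) {θ B : ℝ}
    (hB : ∀ η : ℝ, 0 < η → ∀ᶠ x in atTop, ‖MT θ x‖ ≤ (B + η) * Real.sqrt x) {x : ℝ} (hx : 1 ≤ x) :
    ‖MT θ x‖ ≤ B * Real.sqrt x + (B + 1 + CR) := by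
  have hsq : ∀ u : ℝ, Real.sqrt (Real.exp u) = Real.exp (u / 2) := by
    intro u
    rw [Real.sqrt_eq_iff_mul_self_eq (Real.exp_pos _).le (Real.exp_pos _).le, ← Real.exp_add]
    congr 1; ring
  have hmm : ∀ t, 0 ≤ t → |mm t| ≤ K := by
    intro t ht
    have h1 := hK (Real.exp t) (Real.one_le_exp ht)
    rw [hsq] at h1
    unfold mm
    rw [abs_mul, abs_of_pos (Real.exp_pos _)]
    have h2 : Real.exp (t / 2) * Real.exp (-t / 2) = 1 := by
      rw [← Real.exp_add, show t / 2 + -t / 2 = 0 by ring, Real.exp_zero]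
    calc |S mu (Real.exp t)| * Real.exp (-t / 2) ≤ (K * Real.exp (t / 2)) * Real.exp (-t / 2) :=
          mul_le_mul_of_nonneg_right h1 (Real.exp_pos _).le
      _ = K := by rw [mul_assoc, h2, mul_one]
  have hK0 : 0 ≤ K := (abs_nonneg _).trans (hmm 0 le_rfl)
  have hmm2 : ∀ t, |mm t| ≤ K := by
    intro t
    rcases lt_or_ge t 0 with h | h
    · rw [mm_neg99 h]; simpa using hK0
    · exact hmm t h
  have hms := ms_abs99 hmm
  have hrr : ∀ t, |rr t| ≤ K + K := by
    intro t
    have h1 : rr t = ms t - mm t := by unfold ms; ring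
    rw [h1]
    exact (abs_sub _ _).trans (add_le_add (hms t) (hmm2 t))
  have hadd : ∀ u, FF ms θ u = FF mm θ u + FF rr θ u := fun u => FF_add99 mm_meas rr_meas hmm2 hrr θ u
  have hMn : ∀ u : ℝ, 0 ≤ u → ‖FF mm θ u‖ = Real.exp (-u / 2) * ‖MT θ (Real.exp u)‖ := by
    intro u hu
    rw [mm_part99 hmm2 θ hu, norm_mul, norm_ker99]
    congr 2; ring
  have hall : ∀ u, ‖FF ms θ u‖ ≤ B := by
    apply all99 hmm
    intro η hη
    have e1 := Real.tendsto_exp_atTop.eventually (hB (η / 2) (by positivity))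
    have e2 : Tendsto (fun u : ℝ => Real.exp (-u / 2) * (‖FF rr θ 0‖ + CR)) atTop (𝓝 (0 * (‖FF rr θ 0‖ + CR))) := by
      apply Tendsto.mul_const
      apply Real.tendsto_exp_atBot.comp
      have : Tendsto (fun u : ℝ => u * (-1 / 2)) atTop atBot :=
        Filter.Tendsto.atTop_mul_const_of_neg (by norm_num) tendsto_id
      refine this.congr ?_
      intro u; ring
    rw [zero_mul] at e2
    filter_upwards [e1, e2.eventually (gt_mem_nhds (show (0:ℝ) < η / 2 by positivity)), eventually_ge_atTop 0] with u h1 h2 h3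
    rw [hadd]
    refine (norm_add_le _ _).trans ?_
    have h4 := rr_part99 hrr θ h3
    rw [hMn u h3]
    rw [hsq] at h1
    have h5 : Real.exp (-u / 2) * ‖MT θ (Real.exp u)‖ ≤ B + η / 2 := by
      have h6 : Real.exp (-u / 2) * Real.exp (u / 2) = 1 := by
        rw [← Real.exp_add, show -u / 2 + u / 2 = 0 by ring, Real.exp_zero]
      calc Real.exp (-u / 2) * ‖MT θ (Real.exp u)‖ ≤ Real.exp (-u / 2) * ((B + η / 2) * Real.exp (u / 2)) :=
            mul_le_mul_of_nonneg_left h1 (Real.exp_pos _).le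
        _ = (B + η / 2) * (Real.exp (-u / 2) * Real.exp (u / 2)) := by ring
        _ = B + η / 2 := by rw [h6, mul_one]
    linarith
  -- the value at 0
  have hz : ‖FF rr θ 0‖ ≤ B + 1 := by
    have h1 := hadd 0
    have h2 : FF rr θ 0 = FF ms θ 0 - FF mm θ 0 := by rw [h1]; ring
    rw [h2]
    refine (norm_sub_le _ _).trans ?_
    have h3 : ‖FF mm θ 0‖ = 1 := by
      rw [hMn 0 le_rfl]
      unfold MT
      simp
    rw [h3]
    linarith [hall 0]
  obtain ⟨u, hu, rfl⟩ : ∃ u : ℝ, 0 ≤ u ∧ Real.exp u = x := ⟨Real.log x, Real.log_nonneg hx, Real.exp_log (by linarith)⟩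
  have h1 := rr_part99 hrr θ hu
  have h2 : ‖FF mm θ u‖ ≤ B + Real.exp (-u / 2) * (B + 1 + CR) := by
    have h3 : FF mm θ u = FF ms θ u - FF rr θ u := by rw [hadd]; ring
    rw [h3]
    refine (norm_sub_le _ _).trans ?_
    have h4 : Real.exp (-u / 2) * (‖FF rr θ 0‖ + CR) ≤ Real.exp (-u / 2) * (B + 1 + CR) :=
      mul_le_mul_of_nonneg_left (by linarith) (Real.exp_pos _).le
    linarith [hall u]
  rw [hMn u hu] at h2
  rw [hsq]
  have h6 : Real.exp (u / 2) * Real.exp (-u / 2) = 1 := by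
    rw [← Real.exp_add, show u / 2 + -u / 2 = 0 by ring, Real.exp_zero]
  calc ‖MT θ (Real.exp u)‖ = Real.exp (u / 2) * (Real.exp (-u / 2) * ‖MT θ (Real.exp u)‖) := by
        rw [← mul_assoc, h6, one_mul]
    _ ≤ Real.exp (u / 2) * (B + Real.exp (-u / 2) * (B + 1 + CR)) :=
        mul_le_mul_of_nonneg_left h2 (Real.exp_pos _).le
    _ = B * Real.exp (u / 2) + (Real.exp (u / 2) * Real.exp (-u / 2)) * (B + 1 + CR) := by ring
    _ = _ := by rw [h6, one_mul]

end Pool.Agent.Helper99.IT
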