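import Pool.Agent.Helper56.IT.Stmts

/-!
# Project IT (MP_a499ba_nt): the twisted sums are comparable
-/

set_option autoImplicit false

namespace Pool.Agent.Helper99.IT

open Finset Pool.Agent.IT

theorem nit_exp99 (t : ℝ) {n : ℕ} (hn : 1 ≤ n) : nit t n = Complex.exp (Complex.I * ((-(t * Real.log n) : ℝ) : ℂ)) := by
  have h0 : (n : ℂ) ≠ 0 := by exact_mod_cast (by omega : n ≠ 0)
  unfold nit
  rw [Complex.cpow_def_of_ne_zero h0, ← Complex.natCast_log]
  congr 1
  push_cast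
  ring

theorem norm_nit99 (t : ℝ) {n : ℕ} (hn : 1 ≤ n) : ‖nit t n‖ = 1 := by
  rw [nit_exp99 t hn, mul_comm, Complex.norm_exp_ofReal_mul_I]

theorem nit_mul99 (s t : ℝ) {n : ℕ} (hn : 1 ≤ n) : nit t n = nit s n * nit (t - s) n := by
  rw [nit_exp99 t hn, nit_exp99 s hn, nit_exp99 (t - s) hn, ← Complex.exp_add]
  congr 1
  push_cast
  ring

theorem nit_diff99 (t : ℝ) {n : ℕ} (hn : 1 ≤ n) : ‖nit t (n + 1) - nit t n‖ ≤ |t| / n := by
  have hn0 : (0 : ℝ) < n := by exact_mod_cast hn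
  have h1 : nit t (n + 1) - nit t n =
      nit t n * (Complex.exp (Complex.I * ((-t * (Real.log (n + 1) - Real.log n) : ℝ) : ℂ)) - 1) := by
    rw [nit_exp99 t (by omega), nit_exp99 t hn, mul_sub, mul_one, ← Complex.exp_add]
    congr 2
    push_cast
    ring
  have h2 : Real.log (n + 1) - Real.log n ≤ 1 / n := by
    rw [← Real.log_div (by positivity) hn0.ne']
    have h3 := Real.log_le_sub_one_of_pos (show (0 : ℝ) < (n + 1) / n by positivity)
    have h4 : ((n : ℝ) + 1) / n - 1 = 1 / n := by field_simp; ring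
    linarith
  have h5 : 0 ≤ Real.log (n + 1) - Real.log n := by
    have := Real.log_le_log hn0 (by linarith : (n : ℝ) ≤ n + 1)
    linarith
  rw [h1, norm_mul, norm_nit99 t hn, one_mul]
  refine Real.norm_exp_I_mul_ofReal_sub_one_le.trans ?_
  rw [Real.norm_eq_abs, abs_mul, abs_of_nonneg h5, abs_neg, div_eq_mul_one_div]
  exact mul_le_mul_of_nonneg_left h2 (abs_nonneg _)

theorem sqrt_sum99 (N : ℕ) : ∑ n ∈ Finset.range N, 1 / Real.sqrt ((n : ℝ) + 1) ≤ 2 * Real.sqrt N := by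
  induction N with
  | zero => simp
  | succ N ih =>
    rw [Finset.sum_range_succ]
    have h1 : 0 ≤ Real.sqrt N := Real.sqrt_nonneg _
    have h2 : 0 < Real.sqrt ((N : ℝ) + 1) := Real.sqrt_pos.2 (by positivity)
    have h3 : Real.sqrt N ^ 2 = N := Real.sq_sqrt (by positivity)
    have h4 : Real.sqrt ((N : ℝ) + 1) ^ 2 = N + 1 := Real.sq_sqrt (by positivity)
    have h5 : 1 / Real.sqrt ((N : ℝ) + 1) ≤ 2 * Real.sqrt ((N : ℝ) + 1) - 2 * Real.sqrt N := by
      rw [div_le_iff₀ h2]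
      nlinarith [sq_nonneg (Real.sqrt ((N : ℝ) + 1) - Real.sqrt N)]
    push_cast
    linarith

/-- Abel summation: from the phase `s` to the phase `t` -/
theorem abel99 (a : ℕ → ℂ) (s t : ℝ) (N : ℕ) :
    ∑ n ∈ Finset.Icc 1 (N + 1), a n * nit t n =
      (∑ n ∈ Finset.Icc 1 (N + 1), a n * nit s n) * nit (t - s) (N + 1) -
      ∑ n ∈ Finset.range N, (∑ m ∈ Finset.Icc 1 (n + 1), a m * nit s m) *
        (nit (t - s) (n + 1 + 1) - nit (t - s) (n + 1)) := by
  induction N with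
  | zero =>
    simp only [zero_add, Finset.Icc_self, Finset.sum_singleton, Finset.range_zero, Finset.sum_empty, sub_zero]
    rw [nit_mul99 s t le_rfl]
    ring
  | succ N ih =>
    rw [Finset.sum_Icc_succ_top (by omega), ih, Finset.sum_Icc_succ_top (by omega : 1 ≤ N + 1 + 1),
      Finset.sum_range_succ, nit_mul99 s t (by omega : 1 ≤ N + 1 + 1)]
    ring

/-- the twisted sums at two heights `s`, `t`: an eventual bound `C √x` at `s` gives the eventual bound
`((1 + 2|t - s|) C + η) √x` at `t` -/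
theorem cmp99 (a : ℕ → ℂ) {s t C x0 : ℝ} (hC : ∀ x : ℝ, x0 ≤ x → ‖Sw a s x‖ ≤ C * Real.sqrt x) {η : ℝ} (hη : 0 < η) :
    ∃ x1 : ℝ, ∀ x : ℝ, x1 ≤ x → ‖Sw a t x‖ ≤ ((1 + 2 * |t - s|) * C + η) * Real.sqrt x := by
  have hC0 : 0 ≤ C := by
    have h1 := hC (max x0 1) (le_max_left _ _)
    have h2 : 0 < Real.sqrt (max x0 1) := Real.sqrt_pos.2 (lt_of_lt_of_le one_pos (le_max_right _ _))
    by_contra hcon
    push Not at hcon
    have h3 := norm_nonneg (Sw a s (max x0 1))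
    nlinarith
  set A : ℕ → ℂ := fun N => ∑ n ∈ Finset.Icc 1 N, a n * nit s n with hA
  set N0 : ℕ := ⌈x0⌉₊ with hN0
  set M0 : ℝ := ∑ m ∈ Finset.Icc 1 N0, ‖a m * nit s m‖ with hM0
  have hM0' : 0 ≤ M0 := Finset.sum_nonneg fun _ _ => norm_nonneg _
  have hb : ∀ n : ℕ, 1 ≤ n → ‖A n‖ ≤ C * Real.sqrt n + if n ≤ N0 then M0 else 0 := by
    intro n hn
    rcases le_or_gt x0 (n : ℝ) with h | h
    · have h1 := hC n h
      unfold Sw at h1
      rw [Nat.floor_natCast] at h1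
      have h2 : (0:ℝ) ≤ if n ≤ N0 then M0 else 0 := by split_ifs <;> simp [hM0']
      simp only [hA]
      linarith
    · have h1 : n ≤ N0 := by
        have : (n : ℝ) ≤ ⌈x0⌉₊ := h.le.trans (Nat.le_ceil _)
        exact_mod_cast this
      have h2 : ‖A n‖ ≤ M0 := (norm_sum_le _ _).trans
        (Finset.sum_le_sum_of_subset_of_nonneg (Finset.Icc_subset_Icc le_rfl h1) fun _ _ _ => norm_nonneg _)
      rw [if_pos h1]
      have h3 : 0 ≤ C * Real.sqrt n := by positivity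
      linarith
  set E : ℝ := M0 + |t - s| * (M0 * N0) with hE
  have hE0 : 0 ≤ E := by positivity
  refine ⟨max 1 ((E / η) ^ 2), fun x hx => ?_⟩
  have hx1 : 1 ≤ x := (le_max_left _ _).trans hx
  have hx2 : (E / η) ^ 2 ≤ x := (le_max_right _ _).trans hx
  obtain ⟨N, hN⟩ : ∃ N : ℕ, ⌊x⌋₊ = N + 1 := by
    have h1 : 1 ≤ ⌊x⌋₊ := Nat.le_floor (by simpa using hx1)
    exact ⟨⌊x⌋₊ - 1, by omega⟩
  have hNx : ((N + 1 : ℕ) : ℝ) ≤ x := by rw [← hN]; exact Nat.floor_le (by linarith)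
  have hsq : Real.sqrt ((N + 1 : ℕ) : ℝ) ≤ Real.sqrt x := Real.sqrt_le_sqrt hNx
  have hEx : E ≤ η * Real.sqrt x := by
    have h1 : E / η ≤ Real.sqrt x := Real.le_sqrt_of_sq_le hx2
    rwa [div_le_iff₀ hη, mul_comm] at h1
  have h0 : Sw a t x = ∑ n ∈ Finset.Icc 1 (N + 1), a n * nit t n := by unfold Sw; rw [hN]
  rw [h0, abel99 a s t N]
  have h1 : ‖(∑ n ∈ Finset.Icc 1 (N + 1), a n * nit s n) * nit (t - s) (N + 1)‖ ≤ C * Real.sqrt ((N + 1 : ℕ) : ℝ) + M0 := by
    rw [norm_mul, norm_nit99 _ (by omega), mul_one]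
    refine (hb (N + 1) (by omega)).trans ?_
    have : (if N + 1 ≤ N0 then M0 else 0) ≤ M0 := by split_ifs <;> linarith
    linarith
  have h2 : ‖∑ n ∈ Finset.range N, (∑ m ∈ Finset.Icc 1 (n + 1), a m * nit s m) *
      (nit (t - s) (n + 1 + 1) - nit (t - s) (n + 1))‖ ≤
      C * |t - s| * (2 * Real.sqrt ((N + 1 : ℕ) : ℝ)) + |t - s| * (M0 * N0) := by
    refine (norm_sum_le _ _).trans ?_
    have h3 : ∀ n ∈ Finset.range N, ‖(∑ m ∈ Finset.Icc 1 (n + 1), a m * nit s m) *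
        (nit (t - s) (n + 1 + 1) - nit (t - s) (n + 1))‖ ≤ C * |t - s| * (1 / Real.sqrt ((n : ℝ) + 1)) +
          |t - s| * (if n < N0 then M0 else 0) := by
      intro n _
      rw [norm_mul]
      have h4 := hb (n + 1) (by omega)
      have h5 := nit_diff99 (t - s) (show 1 ≤ n + 1 by omega)
      have hp : (0 : ℝ) < (n : ℝ) + 1 := by positivity
      have h6 : Real.sqrt ((n : ℝ) + 1) * (|t - s| / ((n : ℝ) + 1)) = |t - s| * (1 / Real.sqrt ((n : ℝ) + 1)) := by
        have h7 : Real.sqrt ((n : ℝ) + 1) ^ 2 = n + 1 := Real.sq_sqrt hp.le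
        have h8 : 0 < Real.sqrt ((n : ℝ) + 1) := Real.sqrt_pos.2 hp
        rw [mul_div_assoc', div_eq_iff hp.ne']
        calc Real.sqrt ((n : ℝ) + 1) * |t - s| = |t - s| * (1 / Real.sqrt ((n : ℝ) + 1)) * Real.sqrt ((n : ℝ) + 1) ^ 2 := by
              field_simp
          _ = _ := by rw [h7]
      have h9 : |t - s| / ((n : ℝ) + 1) ≤ |t - s| := div_le_self (abs_nonneg _) (by linarith [(Nat.cast_nonneg n : (0:ℝ) ≤ n)])
      push_cast at h4 h5
      have h10 : (if n + 1 ≤ N0 then M0 else 0) = if n < N0 then M0 else 0 := by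
        congr 1
      rw [h10] at h4
      have h11 : (0:ℝ) ≤ if n < N0 then M0 else 0 := by split_ifs <;> simp [hM0']
      calc _ ≤ (C * Real.sqrt ((n : ℝ) + 1) + if n < N0 then M0 else 0) * (|t - s| / ((n : ℝ) + 1)) :=
            mul_le_mul h4 h5 (norm_nonneg _) (by positivity)
        _ = C * (Real.sqrt ((n : ℝ) + 1) * (|t - s| / ((n : ℝ) + 1))) + (|t - s| / ((n : ℝ) + 1)) * (if n < N0 then M0 else 0) := by ring
        _ ≤ _ := by rw [h6]; have := mul_le_mul_of_nonneg_right h9 h11; linarith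
    refine (Finset.sum_le_sum h3).trans ?_
    rw [Finset.sum_add_distrib, ← Finset.mul_sum, ← Finset.mul_sum]
    apply add_le_add
    · refine mul_le_mul_of_nonneg_left ?_ (by positivity)
      refine (sqrt_sum99 N).trans ?_
      have : Real.sqrt (N : ℝ) ≤ Real.sqrt ((N + 1 : ℕ) : ℝ) := Real.sqrt_le_sqrt (by push_cast; linarith)
      linarith
    · apply mul_le_mul_of_nonneg_left _ (abs_nonneg _)
      rw [← Finset.sum_filter]
      rw [Finset.sum_const, nsmul_eq_mul, mul_comm]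
      apply mul_le_mul_of_nonneg_left _ hM0'
      have : (Finset.filter (fun n => n < N0) (Finset.range N)).card ≤ (Finset.range N0).card := by
        apply Finset.card_le_card
        intro n hn
        rw [Finset.mem_range]
        exact (Finset.mem_filter.mp hn).2
      rw [Finset.card_range] at this
      exact_mod_cast this
  have hts := abs_nonneg (t - s)
  calc _ ≤ (C * Real.sqrt ((N + 1 : ℕ) : ℝ) + M0) + (C * |t - s| * (2 * Real.sqrt ((N + 1 : ℕ) : ℝ)) + |t - s| * (M0 * N0)) :=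
        (norm_sub_le _ _).trans (add_le_add h1 h2)
    _ = (1 + 2 * |t - s|) * C * Real.sqrt ((N + 1 : ℕ) : ℝ) + E := by rw [hE]; ring
    _ ≤ (1 + 2 * |t - s|) * C * Real.sqrt x + η * Real.sqrt x :=
        add_le_add (mul_le_mul_of_nonneg_left hsq (by positivity)) hEx
    _ = _ := by ring

end Pool.Agent.Helper99.IT
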