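import Pool.Agent.Helper56.IT.Stmts
import Pool.Agent.Helper99.IT.RecC

open Complex Filter Topology MeasureTheory Set
open Pool.Agent.Helper57.Zeta
open Pool.Agent.Helper71.MR
open Pool.Agent.Helper18.ES (S mu mu_le)

namespace Pool.Agent.Helper99.IT

theorem Sw_MT99 (t x : ℝ) : Pool.Agent.IT.Sw Pool.Agent.IT.muc t x = MT t x := by
  unfold Pool.Agent.IT.Sw MT Pool.Agent.IT.muc Pool.Agent.IT.nit
  apply Finset.sum_congr rfl
  intro n _
  congr 2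
  ring

theorem Sw_zero99 (x : ℝ) : Pool.Agent.IT.Sw Pool.Agent.IT.muc 0 x = (S mu x : ℂ) := by
  unfold Pool.Agent.IT.Sw S mu Pool.Agent.IT.muc Pool.Agent.IT.nit
  push_cast
  apply Finset.sum_congr rfl
  intro n _
  simp

/-- recurrence for the twisted sums of the Moebius function -/
theorem stmtHg_mu : (∃ K : ℝ, ∀ x : ℝ, 1 ≤ x → ‖Pool.Agent.IT.Sw Pool.Agent.IT.muc 0 x‖ ≤ K * Real.sqrt x) →
    ∃ C : ℝ, ∀ t B x0 : ℝ, 0 ≤ B → (∀ x : ℝ, x0 ≤ x → ‖Pool.Agent.IT.Sw Pool.Agent.IT.muc t x‖ ≤ B * Real.sqrt x) →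
      ∀ n : ℕ, 1 ≤ n → ‖Pool.Agent.IT.Sw Pool.Agent.IT.muc t n‖ ≤ (2 * B + C) * Real.sqrt n := by
  rintro ⟨K, hK⟩
  refine ⟨1 + CR, ?_⟩
  intro t B x0 hB hb n hn
  have hK2 : ∀ x : ℝ, 1 ≤ x → |S mu x| ≤ K * Real.sqrt x := by
    intro x hx
    have := hK x hx
    rwa [Sw_zero99, Complex.norm_real, Real.norm_eq_abs] at this
  have h1 : (1:ℝ) ≤ n := by exact_mod_cast hn
  have h := rec_M99 hK2 (θ := t) (B := B) (by
    intro η hη
    filter_upwards [eventually_ge_atTop x0] with x hx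
    have h2 := hb x hx
    rw [Sw_MT99] at h2
    have h3 : 0 ≤ η * Real.sqrt x := by positivity
    linarith) h1
  rw [Sw_MT99]
  have hs : (1:ℝ) ≤ Real.sqrt n := by
    rw [← Real.sqrt_one]; exact Real.sqrt_le_sqrt h1
  have hC := CR_nonneg
  nlinarith

end Pool.Agent.Helper99.IT
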