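import Pool.Agent.Helper71.MR.Fin

open Complex Filter Topology MeasureTheory Set
open Pool.Agent.Helper57.Zeta
open Pool.Agent.Helper71.MR

namespace Pool.Agent.Helper99.IT

theorem fail99 {K : ℝ} (hK : ∀ t, 0 ≤ t → |mm t| ≤ K) {σ : ℝ} (hσ : |σ| = 1) : FailR σ K := by
  intro C
  refine ⟨max C 1, le_max_left _ _, fun t ht => ?_⟩
  have h1 : (0:ℝ) ≤ t := by
    have := le_max_right C 1
    linarith [ht.1]
  have h2 := hK t h1
  have h3 : σ * mm t ≤ |σ * mm t| := le_abs_self _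
  rw [abs_mul, hσ, one_mul] at h3
  linarith

theorem ms_abs99 {K : ℝ} (hK : ∀ t, 0 ≤ t → |mm t| ≤ K) (t : ℝ) : |ms t| ≤ K := by
  obtain ⟨C4, hC4, hB⟩ := big_of_right (σ := 1) (by simp) (fail99 hK (by simp))
  obtain ⟨C5, hC5, hB'⟩ := big_of_right (σ := -1) (by simp) (fail99 hK (by simp))
  have h1 := ms_le_of_big hC4 hB t
  have h2 := ms_le_of_big hC5 hB' t
  rw [abs_le]
  constructor <;> linarith

theorem wt_int99 : Integrable wt := by
  obtain ⟨C, hC0, hC⟩ : ∃ C : ℝ, 0 ≤ C ∧ ∀ v, wt v ≤ C * Real.exp (-(1 * |v|)) := by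
    refine ⟨Real.exp 10, (Real.exp_pos _).le, fun v => ?_⟩
    unfold wt
    rw [← Real.exp_add]
    apply Real.exp_le_exp.mpr
    have h1 := exp_two_ge v
    have h2 : (|v| - 10) ^ 2 ≥ 0 := sq_nonneg _
    have h3 : |v| ^ 2 = v ^ 2 := sq_abs v
    nlinarith [abs_nonneg v, sq_nonneg (|v| - 2)]
  refine Integrable.mono' ((integrable_exp_abs one_pos).const_mul C) wt_cont.aestronglyMeasurable ?_
  filter_upwards with v
  rw [Real.norm_eq_abs, abs_of_pos (wt_pos v)]
  exact hC v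

/-- return times tending to infinity -/
theorem times99 {K : ℝ} (hK : ∀ t, 0 ≤ t → |mm t| ≤ K) : ∃ C4 : ℝ, 0 ≤ C4 ∧ ∃ τ : ℕ → ℝ,
    Tendsto τ atTop atTop ∧
    (∀ y : ℝ, ∫ v : ℝ, |ms (y + v)| * wt v ≤ C4) ∧
    (∀ w : ℂ, xi (1 / 2 + w) = 0 → Tendsto (fun n => cexp (w * τ n)) atTop (𝓝 1)) := by
  classical
  have hK0 : 0 ≤ K := (abs_nonneg _).trans (hK 0 le_rfl)
  obtain ⟨C4', hC4', hB⟩ := big_of_right (σ := 1) (by simp) (fail99 hK (by simp))
  have hfin : ∀ n : ℕ, {w : ℂ | xi (1 / 2 + w) = 0 ∧ |w.im| ≤ n}.Finite := by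
    intro n
    have h := (zsym_finite (n : ℝ)).preimage (f := fun w : ℂ => 1 / 2 + w) (by
      intro a _ b _ hab
      simpa using hab)
    refine h.subset ?_
    intro w hw
    refine ⟨hw.1, ?_⟩
    have : (1 / 2 + w).im = w.im := by simp
    rw [this]
    exact hw.2
  have key : ∀ n : ℕ, ∃ τ : ℝ, (n : ℝ) ≤ τ ∧
      (∀ w : ℂ, xi (1 / 2 + w) = 0 → |w.im| ≤ n → ‖cexp (w * τ) - 1‖ < 1 / ((n : ℝ) + 1)) := by
    intro n
    obtain ⟨W, hW0, hWr⟩ := rel_dense (hfin n).toFinset (by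
      intro w hw
      rw [Set.Finite.mem_toFinset] at hw
      exact big_re hC4' hB hw.1) (δ := 1 / ((n : ℝ) + 1)) (by positivity)
    obtain ⟨τ, hτ, hτ2⟩ := hWr n
    refine ⟨τ, hτ.1, ?_⟩
    intro w hw hwi
    apply hτ2
    rw [Set.Finite.mem_toFinset]
    exact ⟨hw, hwi⟩
  choose τ h2 h3 using key
  refine ⟨∫ v : ℝ, K * wt v, integral_nonneg (fun v => mul_nonneg hK0 (wt_pos v).le), τ, ?_, ?_, ?_⟩
  · exact tendsto_atTop_mono h2 tendsto_natCast_atTop_atTop
  · intro y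
    apply integral_mono (ms_wt_int y) (wt_int99.const_mul K)
    intro v
    exact mul_le_mul_of_nonneg_right (ms_abs99 hK _) (wt_pos v).le
  · intro w hw
    rw [tendsto_iff_norm_sub_tendsto_zero]
    apply squeeze_zero' (g := fun n : ℕ => 1 / ((n : ℝ) + 1))
    · exact Eventually.of_forall fun n => norm_nonneg _
    · obtain ⟨N, hN⟩ := exists_nat_ge |w.im|
      filter_upwards [eventually_ge_atTop N] with n hn
      have : |w.im| ≤ (n : ℝ) := hN.trans (by exact_mod_cast hn)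
      exact (h3 n w hw this).le
    · exact tendsto_one_div_add_atTop_nhds_zero_nat

/-- the smoothed profile recurs -/
theorem lim99 {K : ℝ} (hK : ∀ t, 0 ≤ t → |mm t| ≤ K) {δ : ℝ} (hδ : δ ≤ 1) :
    ∃ τ : ℕ → ℝ, Tendsto τ atTop atTop ∧
      ∀ t, Tendsto (fun n => hh δ (τ n + t)) atTop (𝓝 (hh δ t)) := by
  obtain ⟨C4', hC4', hBig⟩ := big_of_right (σ := 1) (by simp) (fail99 hK (by simp))
  obtain ⟨C4, hC4, τ, hτ, hw2, hret⟩ := times99 hK
  set B : ℝ := Real.exp (Real.exp (2 * (1 + 1)) / 10) * C4 with hB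
  have hB0 : 0 ≤ B := mul_nonneg (Real.exp_pos _).le hC4
  have hbd : ∀ y : ℝ, |hh δ y| ≤ B := by
    intro y
    have h := hh_bd_wt hδ (t := 0) (R := 1) (by simp) y
    rw [add_zero] at h
    exact h.trans (mul_le_mul_of_nonneg_left (hw2 y) (Real.exp_pos _).le)
  have hlip : ∀ y y' : ℝ, |y - y'| ≤ 1 → |hh δ y - hh δ y'| ≤ B * |y - y'| := by
    intro y y' htt
    have h := hh_lip_wt hδ (t := 0) (t' := y' - y) (R := 1) (by simp) (by rwa [abs_sub_comm]) y
    rw [add_zero, show y + (y' - y) = y' by ring, zero_sub, neg_sub] at h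
    refine h.trans ?_
    rw [mul_comm]
    apply mul_le_mul_of_nonneg_right _ (abs_nonneg _)
    exact mul_le_mul_of_nonneg_left (hw2 y) (Real.exp_pos _).le
  obtain ⟨G, φ, hφ, hG⟩ := extract (fun n t => hh δ (τ n + t)) B (fun n t _ => hbd _) (by
    intro n t t' _ htt
    have h := hlip (τ n + t) (τ n + t') (by rwa [add_sub_add_left_eq_sub])
    rwa [add_sub_add_left_eq_sub] at h)
  have hGb : ∀ t, |G t| ≤ B := fun t => le_of_tendsto (hG t).abs (Eventually.of_forall fun n => hbd _)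
  have hGl : ∀ t t' : ℝ, |t - t'| ≤ 1 → |G t - G t'| ≤ B * |t - t'| := by
    intro t t' htt
    apply le_of_tendsto ((hG t).sub (hG t')).abs
    filter_upwards with n
    have h := hlip (τ (φ n) + t) (τ (φ n) + t') (by rwa [add_sub_add_left_eq_sub])
    rwa [add_sub_add_left_eq_sub] at h
  have hGc : Continuous G := by
    rw [continuous_iff_continuousAt]
    intro t₀
    rw [Metric.continuousAt_iff]
    intro ε hε
    refine ⟨min 1 (ε / (B + 1)), by positivity, ?_⟩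
    intro x hx
    rw [Real.dist_eq] at hx ⊢
    have h1 := hGl x t₀ ((hx.trans_le (min_le_left _ _)).le)
    refine h1.trans_lt ?_
    have h2 := hx.trans_le (min_le_right 1 (ε / (B + 1)))
    rw [lt_div_iff₀ (by positivity)] at h2
    nlinarith [abs_nonneg (x - t₀)]
  have hGgr : Gr G B 0 := ⟨hGc, fun t => by simpa using hGb t⟩
  have hw3 : ∀ n : ℕ, ∀ t : ℝ, |t| ≤ n → ∫ v : ℝ, |ms (τ n + t + v)| * wt v ≤ C4 :=
    fun n t _ => hw2 _
  have hGkr : ∀ t, ∫ s : ℝ, (G (t + s) : ℂ) * (kr s : ℂ) = 0 := by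
    intro t
    obtain ⟨Ck, hCk⟩ := dk_kr
    have h := trans_lim hδ hC4 hw3 hφ hG hCk t
    have h2 : (fun n => ∫ s : ℝ, (hh δ (τ (φ n) + (t + s)) : ℂ) * (kr s : ℂ)) = fun _ => (0:ℂ) := by
      ext n
      rw [← hh_kr hδ (τ (φ n) + t)]
      apply integral_congr_ae
      filter_upwards with s
      rw [show τ (φ n) + t + s = τ (φ n) + (t + s) by ring]
    rw [h2] at h
    exact tendsto_nhds_unique h tendsto_const_nhds |>.symm ▸ rfl
  have hGAw : ∀ w, xi (1 / 2 + w) = 0 → ∫ s : ℝ, (G s : ℂ) * Aw kr w s =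
        cw w * ∫ u : ℝ, (gt δ u : ℂ) * cexp (w * u) := by
    intro w hw
    obtain ⟨C, hC⟩ := dk_Aw hw
    have h := trans_lim hδ hC4 hw3 hφ hG hC 0
    simp only [zero_add] at h
    have h2 : (fun n => ∫ s : ℝ, (hh δ (τ (φ n) + s) : ℂ) * Aw kr w s) =
        fun n => cexp (w * τ (φ n)) * (cw w * ∫ u : ℝ, (gt δ u : ℂ) * cexp (w * u)) := by
      ext n
      rw [hh_Aw hδ hw]
    rw [h2] at h
    have h3 := ((hret w hw).comp hφ.tendsto_atTop).mul_const (cw w * ∫ u : ℝ, (gt δ u : ℂ) * cexp (w * u))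
    rw [one_mul] at h3
    exact tendsto_nhds_unique h h3
  -- uniqueness
  obtain ⟨A, hA⟩ := hh_gr hδ
  obtain ⟨Ck, hCk⟩ := dk_kr
  have hDgr : Gr (fun t => G t - hh δ t) (B + A) (3 / 4) := by
    refine ⟨hGgr.cont.sub (hh_cont hδ), fun t => ?_⟩
    have h1 := abs_sub (G t) (hh δ t)
    have h2 := hGgr.bd t
    have h3 := hA.bd t
    have h4 : 1 ≤ Real.exp (3 / 4 * |t|) := Real.one_le_exp (by positivity)
    rw [zero_mul, Real.exp_zero, mul_one] at h2
    rw [add_mul]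
    nlinarith
  have hD0 : ∀ t, (fun t => G t - hh δ t) t = 0 := by
    apply uniq hDgr (by norm_num) (by norm_num) ker_kr (big_simple hC4' hBig)
    · intro t
      have e1 : ∫ s : ℝ, ((G s - hh δ s : ℝ) : ℂ) * (kr (s - t) : ℂ) =
          ∫ s : ℝ, (((G (t + s) : ℂ) * (kr s : ℂ)) - (hh δ (t + s) : ℂ) * (kr s : ℂ)) := by
        rw [← integral_add_left_eq_self (fun s : ℝ => ((G s - hh δ s : ℝ) : ℂ) * (kr (s - t) : ℂ)) t]
        apply integral_congr_ae
        filter_upwards with s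
        rw [show t + s - t = s by ring]
        push_cast; ring
      rw [e1, integral_sub (dk_int hGgr (by norm_num) hCk t) (dk_int hA le_rfl hCk t), hGkr, hh_kr hδ, sub_zero]
    · intro w hw
      obtain ⟨C, hC⟩ := dk_Aw hw
      have i1 := dk_int hGgr (by norm_num) hC 0
      have i2 := dk_int hA le_rfl hC 0
      have e3 := hh_Aw hδ hw 0
      simp only [zero_add] at i1 i2 e3
      rw [show w * ((0:ℝ) : ℂ) = 0 by simp, Complex.exp_zero, one_mul] at e3
      have e1 : ∫ s : ℝ, ((G s - hh δ s : ℝ) : ℂ) * Aw kr w s =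
          ∫ s : ℝ, (((G s : ℂ) * Aw kr w s) - (hh δ s : ℂ) * Aw kr w s) := by
        apply integral_congr_ae
        filter_upwards with s
        push_cast; ring
      have e2 : ∫ s : ℝ, ((G s - hh δ s : ℝ) : ℂ) * Aw kr w s = 0 := by
        rw [e1, integral_sub i1 i2, hGAw w hw, e3, sub_self]
      have e4 := split_eq hDgr le_rfl hw
      rw [e2] at e4
      exact (sub_eq_zero.mp e4.symm)
  refine ⟨fun n => τ (φ n), hτ.comp hφ.tendsto_atTop, fun t => ?_⟩
  have hGt : G t = hh δ t := by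
    have := hD0 t
    simp only at this
    linarith
  rw [← hGt]
  exact hG t

end Pool.Agent.Helper99.IT
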