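import Pool.Agent.Helper99.IT.RecA

open Complex Filter Topology MeasureTheory Set
open Pool.Agent.Helper57.Zeta
open Pool.Agent.Helper71.MR

namespace Pool.Agent.Helper99.IT

/-- convolution with the unit mass plus i theta e^{(i theta - 1/2) v} on the positive half line -/
noncomputable def FF (f : ℝ → ℝ) (θ u : ℝ) : ℂ :=
  (f u : ℂ) + I * θ * ∫ v in Ioi (0:ℝ), (f (u - v) : ℂ) * cexp ((I * θ - 1 / 2) * v)

theorem norm_ker99 (θ v : ℝ) : ‖cexp ((I * θ - 1 / 2) * v)‖ = Real.exp (-(1 / 2) * v) := by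
  rw [Complex.norm_exp]
  congr 1
  simp

theorem ker_int99 (θ : ℝ) : IntegrableOn (fun v : ℝ => cexp ((I * θ - 1 / 2) * v)) (Ioi 0) := by
  have h1 : IntegrableOn (fun v : ℝ => Real.exp (-(1 / 2) * v)) (Ioi 0) :=
    integrableOn_exp_mul_Ioi (by norm_num) 0
  refine Integrable.mono' h1 ?_ ?_
  · apply Continuous.aestronglyMeasurable
    fun_prop
  · filter_upwards with v
    rw [norm_ker99]

theorem conv_int99 {f : ℝ → ℝ} (hf : Measurable f) {K : ℝ} (hK : ∀ t, |f t| ≤ K) (θ u : ℝ) :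
    IntegrableOn (fun v : ℝ => (f (u - v) : ℂ) * cexp ((I * θ - 1 / 2) * v)) (Ioi 0) := by
  have h1 : IntegrableOn (fun v : ℝ => K * Real.exp (-(1 / 2) * v)) (Ioi 0) :=
    (integrableOn_exp_mul_Ioi (by norm_num) 0).const_mul K
  refine Integrable.mono' h1 ?_ ?_
  · apply Measurable.aestronglyMeasurable
    fun_prop
  · filter_upwards with v
    rw [norm_mul, norm_ker99, Complex.norm_real, Real.norm_eq_abs]
    exact mul_le_mul_of_nonneg_right (hK _) (Real.exp_pos _).le

theorem FF_eq99 (f : ℝ → ℝ) (θ u : ℝ) : FF f θ u = (f u : ℂ) +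
    I * θ * (cexp ((I * θ - 1 / 2) * u) * ∫ w in Iic u, (f w : ℂ) * cexp (-((I * θ - 1 / 2) * w))) := by
  unfold FF
  congr 2
  have h := int_shift_Iic (fun w : ℝ => cexp ((I * θ - 1 / 2) * u) * ((f w : ℂ) * cexp (-((I * θ - 1 / 2) * w)))) u
  rw [← integral_const_mul, ← h]
  apply integral_congr_ae
  filter_upwards with v
  have : cexp ((I * θ - 1 / 2) * v) = cexp ((I * θ - 1 / 2) * u) * cexp (-((I * θ - 1 / 2) * ((u - v : ℝ) : ℂ))) := by
    rw [← Complex.exp_add]; congr 1; push_cast; ring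
  rw [this]
  ring

theorem iic_int99 {f : ℝ → ℝ} (hf : Measurable f) {K : ℝ} (hK : ∀ t, |f t| ≤ K) (θ u : ℝ) :
    IntegrableOn (fun w : ℝ => (f w : ℂ) * cexp (-((I * θ - 1 / 2) * w))) (Iic u) := by
  have h1 : IntegrableOn (fun w : ℝ => K * Real.exp (1 / 2 * w)) (Iic u) :=
    (integrableOn_exp_mul_Iic (by norm_num) u).const_mul K
  refine Integrable.mono' h1 ?_ ?_
  · apply Measurable.aestronglyMeasurable
    fun_prop
  · filter_upwards with v
    have h2 : ‖cexp (-((I * θ - 1 / 2) * v))‖ = Real.exp (1 / 2 * v) := by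
      rw [Complex.norm_exp]
      congr 1
      simp
    rw [norm_mul, h2, Complex.norm_real, Real.norm_eq_abs]
    exact mul_le_mul_of_nonneg_right (hK _) (Real.exp_pos _).le

theorem FF_norm99 {f : ℝ → ℝ} {K : ℝ} (hK : ∀ t, |f t| ≤ K) (θ u : ℝ) :
    ‖FF f θ u‖ ≤ K * (1 + 2 * |θ|) := by
  unfold FF
  have h1 : ‖∫ v in Ioi (0:ℝ), (f (u - v) : ℂ) * cexp ((I * θ - 1 / 2) * v)‖ ≤
      ∫ v in Ioi (0:ℝ), K * Real.exp (-(1 / 2) * v) := by
    apply norm_integral_le_of_norm_le ((integrableOn_exp_mul_Ioi (by norm_num) 0).const_mul K)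
    filter_upwards with v
    rw [norm_mul, norm_ker99, Complex.norm_real, Real.norm_eq_abs]
    exact mul_le_mul_of_nonneg_right (hK _) (Real.exp_pos _).le
  have h2 : ∫ v in Ioi (0:ℝ), K * Real.exp (-(1 / 2) * v) = K * 2 := by
    rw [integral_const_mul, integral_exp_mul_Ioi (by norm_num)]
    norm_num
  rw [h2] at h1
  refine (norm_add_le _ _).trans ?_
  rw [norm_mul, norm_mul, Complex.norm_I, one_mul, Complex.norm_real, Complex.norm_real, Real.norm_eq_abs,
    Real.norm_eq_abs]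
  have h3 := hK u
  nlinarith [mul_le_mul_of_nonneg_left h1 (abs_nonneg θ)]

theorem FF_right99 {f : ℝ → ℝ} (hf : Measurable f) {K : ℝ} (hK : ∀ t, |f t| ≤ K) (θ u : ℝ)
    (hr : Tendsto f (𝓝[≥] u) (𝓝 (f u))) : Tendsto (FF f θ) (𝓝[≥] u) (𝓝 (FF f θ u)) := by
  have h1 : FF f θ = fun u => (f u : ℂ) +
    I * θ * (cexp ((I * θ - 1 / 2) * u) * ∫ w in Iic u, (f w : ℂ) * cexp (-((I * θ - 1 / 2) * w))) := by
    ext u
    exact FF_eq99 f θ u
  rw [h1]
  apply Tendsto.add
  · exact (Complex.continuous_ofReal.tendsto _).comp hr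
  · apply Tendsto.const_mul
    apply Tendsto.mul
    · apply Filter.Tendsto.mono_left _ nhdsWithin_le_nhds
      apply Continuous.tendsto
      fun_prop
    · have h2 : ∀ x, u ≤ x → ∫ w in Iic x, (f w : ℂ) * cexp (-((I * θ - 1 / 2) * w)) =
          (∫ w in Iic u, (f w : ℂ) * cexp (-((I * θ - 1 / 2) * w))) +
            ∫ w in u..x, (f w : ℂ) * cexp (-((I * θ - 1 / 2) * w)) := by
        intro x hx
        rw [← intervalIntegral.integral_Iic_sub_Iic (iic_int99 hf hK θ u) (iic_int99 hf hK θ x)]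
        ring
      have h3 : Tendsto (fun x => (∫ w in Iic u, (f w : ℂ) * cexp (-((I * θ - 1 / 2) * w))) +
            ∫ w in u..x, (f w : ℂ) * cexp (-((I * θ - 1 / 2) * w))) (𝓝[≥] u)
            (𝓝 ((∫ w in Iic u, (f w : ℂ) * cexp (-((I * θ - 1 / 2) * w))) +
            ∫ w in u..u, (f w : ℂ) * cexp (-((I * θ - 1 / 2) * w)))) := by
        apply Filter.Tendsto.mono_left _ nhdsWithin_le_nhds
        apply Continuous.tendsto
        apply Continuous.add continuous_const
        apply intervalIntegral.continuous_primitive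
        intro a b
        have h4 := iic_int99 hf hK θ (max a b)
        rw [intervalIntegrable_iff]
        apply h4.mono_set
        intro x hx
        exact hx.2
      rw [intervalIntegral.integral_same, add_zero] at h3
      refine h3.congr' ?_
      filter_upwards [self_mem_nhdsWithin] with x hx
      exact (h2 x hx).symm

theorem FF_meas99 {f : ℝ → ℝ} (hf : Measurable f) {K : ℝ} (hK : ∀ t, |f t| ≤ K) (θ : ℝ) : Measurable (FF f θ) := by
  have h1 : FF f θ = fun u => (f u : ℂ) + I * θ * (cexp ((I * θ - 1 / 2) * u) *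
      ((∫ w in Iic (0:ℝ), (f w : ℂ) * cexp (-((I * θ - 1 / 2) * w))) +
            ∫ w in (0:ℝ)..u, (f w : ℂ) * cexp (-((I * θ - 1 / 2) * w)))) := by
    ext u
    rw [FF_eq99 f θ u]
    congr 3
    rw [← intervalIntegral.integral_Iic_sub_Iic (iic_int99 hf hK θ 0) (iic_int99 hf hK θ u)]
    ring
  rw [h1]
  have h2 : Continuous (fun u : ℝ => ∫ w in (0:ℝ)..u, (f w : ℂ) * cexp (-((I * θ - 1 / 2) * w))) := by
    apply intervalIntegral.continuous_primitive
    intro a b
    have h4 := iic_int99 hf hK θ (max a b)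
    rw [intervalIntegrable_iff]
    apply h4.mono_set
    intro x hx
    exact hx.2
  have h3 := h2.measurable
  fun_prop

/-- the smoothed function convolved -/
noncomputable def HH (δ θ u : ℝ) : ℂ :=
  (hh δ u : ℂ) + I * θ * ∫ v in Ioi (0:ℝ), (hh δ (u - v) : ℂ) * cexp ((I * θ - 1 / 2) * v)

theorem smooth99 {K : ℝ} (hK : ∀ t, |ms t| ≤ K) {δ : ℝ} (hδ : δ ≤ 1) (θ u : ℝ) :
    ∫ s : ℝ, FF ms θ (u + s) * (gt δ s : ℂ) = HH δ θ u := by
  have hi1 : Integrable (fun s : ℝ => ms (u + s) * gt δ s) := by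
    have := ms_gt_int hδ u 0
    simpa using this
  have hprod : Integrable (fun p : ℝ × ℝ => ((ms (u + p.1 - p.2) : ℂ) * cexp ((I * θ - 1 / 2) * p.2)) * (gt δ p.1 : ℂ))
      (volume.prod (volume.restrict (Ioi (0:ℝ)))) := by
    have h1 : Integrable (fun p : ℝ × ℝ => gt δ p.1 * (K * Real.exp (-(1 / 2) * p.2)))
        (volume.prod (volume.restrict (Ioi (0:ℝ)))) :=
      (gt_integrable δ).mul_prod ((integrableOn_exp_mul_Ioi (by norm_num) 0).const_mul K)
    refine Integrable.mono' h1 ?_ ?_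
    · apply Measurable.aestronglyMeasurable
      have := ms_meas
      have := (gt_cont δ).measurable
      fun_prop
    · filter_upwards with p
      rw [norm_mul, norm_mul, norm_ker99, Complex.norm_real, Complex.norm_real, Real.norm_eq_abs,
        Real.norm_of_nonneg (gt_nonneg _ _), mul_comm]
      apply mul_le_mul_of_nonneg_left _ (gt_nonneg _ _)
      exact mul_le_mul_of_nonneg_right (hK _) (Real.exp_pos _).le
  have hsw := integral_integral_swap (f := fun s v : ℝ => ((ms (u + s - v) : ℂ) * cexp ((I * θ - 1 / 2) * v)) * (gt δ s : ℂ)) hprod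
  have e1 : ∀ s : ℝ, FF ms θ (u + s) * (gt δ s : ℂ) = ((ms (u + s) * gt δ s : ℝ) : ℂ) +
      I * θ * ∫ v in Ioi (0:ℝ), ((ms (u + s - v) : ℂ) * cexp ((I * θ - 1 / 2) * v)) * (gt δ s : ℂ) := by
    intro s
    rw [integral_mul_const]
    unfold FF
    push_cast
    ring
  simp_rw [e1]
  have hi2 : Integrable (fun s : ℝ => ∫ v in Ioi (0:ℝ), ((ms (u + s - v) : ℂ) * cexp ((I * θ - 1 / 2) * v)) * (gt δ s : ℂ)) :=
    hprod.integral_prod_left
  have hi3 : Integrable (fun s : ℝ => ((ms (u + s) * gt δ s : ℝ) : ℂ)) := hi1.ofReal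
  have hi4 : Integrable (fun s : ℝ => I * θ *
      ∫ v in Ioi (0:ℝ), ((ms (u + s - v) : ℂ) * cexp ((I * θ - 1 / 2) * v)) * (gt δ s : ℂ)) := hi2.const_mul _
  rw [integral_add hi3 hi4, integral_const_mul, hsw, integral_complex_ofReal]
  unfold HH
  congr 2
  apply integral_congr_ae
  filter_upwards with v
  have e2 : ∀ s : ℝ, ((ms (u + s - v) : ℂ) * cexp ((I * θ - 1 / 2) * v)) * (gt δ s : ℂ) =
      ((ms (u - v + s) * gt δ s : ℝ) : ℂ) * cexp ((I * θ - 1 / 2) * v) := by
    intro s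
    rw [show u + s - v = u - v + s by ring]
    push_cast
    ring
  simp_rw [e2]
  rw [integral_mul_const, integral_complex_ofReal]
  rfl

theorem hh_abs99 {K : ℝ} (hK : ∀ t, |ms t| ≤ K) (δ y : ℝ) : |hh δ y| ≤ K * ∫ u : ℝ, gt δ u := by
  unfold hh
  rw [← Real.norm_eq_abs, ← integral_const_mul]
  apply norm_integral_le_of_norm_le ((gt_integrable δ).const_mul _)
  filter_upwards with v
  rw [norm_mul, Real.norm_eq_abs, Real.norm_of_nonneg (gt_nonneg _ _)]
  exact mul_le_mul_of_nonneg_right (hK _) (gt_nonneg _ _)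

theorem HH_lim99 {K : ℝ} (hK : ∀ t, |ms t| ≤ K) {δ : ℝ} (hδ : δ ≤ 1) (θ u : ℝ) {τ : ℕ → ℝ}
    (hτ : ∀ t, Tendsto (fun n => hh δ (τ n + t)) atTop (𝓝 (hh δ t))) :
    Tendsto (fun n => HH δ θ (τ n + u)) atTop (𝓝 (HH δ θ u)) := by
  unfold HH
  apply Tendsto.add
  · exact (Complex.continuous_ofReal.tendsto _).comp (hτ u)
  · apply Tendsto.const_mul
    apply tendsto_integral_filter_of_dominated_convergence
      (fun v => (K * ∫ u : ℝ, gt δ u) * Real.exp (-(1 / 2) * v))
    · apply Eventually.of_forall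
      intro n
      apply Measurable.aestronglyMeasurable
      have := (hh_cont hδ).measurable
      fun_prop
    · apply Eventually.of_forall
      intro n
      filter_upwards with v
      rw [norm_mul, norm_ker99, Complex.norm_real, Real.norm_eq_abs]
      exact mul_le_mul_of_nonneg_right (hh_abs99 hK _ _) (Real.exp_pos _).le
    · exact (integrableOn_exp_mul_Ioi (by norm_num) 0).const_mul _
    · filter_upwards with v
      apply Tendsto.mul_const
      have h := hτ (u - v)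
      refine (Complex.continuous_ofReal.tendsto _).comp (h.congr fun n => ?_)
      rw [show τ n + (u - v) = τ n + u - v by ring]

theorem pt99 {f : ℝ → ℂ} {u B : ℝ} (hf : Tendsto f (𝓝[≥] u) (𝓝 (f u)))
    (hi : ∀ δ : ℝ, 0 < δ → δ ≤ 1 → Integrable (fun s : ℝ => f (u + s) * (gt δ s : ℂ)))
    (h : ∀ δ : ℝ, 0 < δ → δ ≤ 1 → ‖∫ s : ℝ, f (u + s) * (gt δ s : ℂ)‖ ≤ B * ∫ s : ℝ, gt δ s) : ‖f u‖ ≤ B := by
  apply le_of_forall_pos_le_add
  intro ε hε
  rw [Metric.tendsto_nhdsWithin_nhds] at hf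
  obtain ⟨η, hη, h2⟩ := hf ε hε
  set δ : ℝ := min 1 (η / 2) with hδ
  have hδ0 : 0 < δ := by positivity
  have hδ1 : δ ≤ 1 := min_le_left _ _
  have hδη : δ < η := by
    have := min_le_right 1 (η / 2)
    rw [hδ]; linarith
  have hI := gt_int_pos hδ0
  have h3 := h δ hδ0 hδ1
  have h4 : ‖(∫ s : ℝ, f (u + s) * (gt δ s : ℂ)) - ∫ s : ℝ, f u * (gt δ s : ℂ)‖ ≤ ε * ∫ s : ℝ, gt δ s := by
    have hi3 : Integrable (fun s : ℝ => f u * (gt δ s : ℂ)) := (gt_integrable δ).ofReal.const_mul _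
    rw [← integral_sub (hi δ hδ0 hδ1) hi3, ← integral_const_mul]
    apply norm_integral_le_of_norm_le ((gt_integrable δ).const_mul _)
    filter_upwards with s
    rw [← sub_mul, norm_mul, Complex.norm_real, Real.norm_of_nonneg (gt_nonneg _ _)]
    rcases le_or_gt s 0 with hs | hs
    · rw [gt_zero (Or.inl hs)]; simp
    rcases le_or_gt δ s with hs' | hs'
    · rw [gt_zero (Or.inr hs')]; simp
    apply mul_le_mul_of_nonneg_right _ (gt_nonneg _ _)
    have h5 := h2 (x := u + s) (by show u ≤ u + s; linarith) (by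
      rw [Real.dist_eq, show u + s - u = s by ring, abs_of_pos hs]; linarith)
    rw [dist_eq_norm] at h5
    exact h5.le
  have h5 : ‖∫ s : ℝ, f u * (gt δ s : ℂ)‖ = ‖f u‖ * ∫ s : ℝ, gt δ s := by
    rw [integral_const_mul, integral_complex_ofReal, norm_mul, Complex.norm_real, Real.norm_of_nonneg hI.le]
  have h6 := norm_sub_norm_le (∫ s : ℝ, f u * (gt δ s : ℂ)) (∫ s : ℝ, f (u + s) * (gt δ s : ℂ))
  rw [norm_sub_rev] at h6
  rw [h5] at h6
  have h7 : ‖f u‖ * ∫ s : ℝ, gt δ s ≤ (B + ε) * ∫ s : ℝ, gt δ s := by linarith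
  exact le_of_mul_le_mul_right h7 hI

/-- recurrence: an eventual bound for the convolution is a bound on the whole line -/
theorem all99 {K : ℝ} (hK : ∀ t, 0 ≤ t → |mm t| ≤ K) {θ B : ℝ}
    (hB : ∀ η : ℝ, 0 < η → ∀ᶠ y in atTop, ‖FF ms θ y‖ ≤ B + η) (u : ℝ) : ‖FF ms θ u‖ ≤ B := by
  have hms := ms_abs99 hK
  have hint : ∀ δ : ℝ, ∀ y : ℝ, Integrable (fun s : ℝ => FF ms θ (y + s) * (gt δ s : ℂ)) := by
    intro δ y
    refine Integrable.mono' ((gt_integrable δ).const_mul (K * (1 + 2 * |θ|))) ?_ ?_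
    · apply Measurable.aestronglyMeasurable
      have := FF_meas99 ms_meas hms θ
      have := (gt_cont δ).measurable
      fun_prop
    · filter_upwards with s
      rw [norm_mul, Complex.norm_real, Real.norm_of_nonneg (gt_nonneg _ _)]
      exact mul_le_mul_of_nonneg_right (FF_norm99 hms θ _) (gt_nonneg _ _)
  apply pt99 (FF_right99 ms_meas hms θ u (ms_right u)) (fun δ _ _ => hint δ u)
  intro δ hδ0 hδ1
  have hI := gt_int_pos hδ0
  rw [smooth99 hms hδ1]
  obtain ⟨τ, hτ, hτ2⟩ := lim99 hK hδ1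
  have h1 := HH_lim99 hms hδ1 θ u hτ2
  have h2 : ∀ η : ℝ, 0 < η → ‖HH δ θ u‖ ≤ (B + η) * ∫ s : ℝ, gt δ s := by
    intro η hη
    apply le_of_tendsto h1.norm
    obtain ⟨Y, hY⟩ := eventually_atTop.mp (hB η hη)
    filter_upwards [hτ.eventually_ge_atTop (Y - u)] with n hn
    rw [← smooth99 hms hδ1, ← integral_const_mul]
    apply norm_integral_le_of_norm_le ((gt_integrable δ).const_mul _)
    filter_upwards with s
    rw [norm_mul, Complex.norm_real, Real.norm_of_nonneg (gt_nonneg _ _)]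
    rcases le_or_gt s 0 with hs | hs
    · rw [gt_zero (Or.inl hs)]; simp
    apply mul_le_mul_of_nonneg_right _ (gt_nonneg _ _)
    apply hY
    linarith
  apply le_of_forall_pos_le_add
  intro ε hε
  have h3 := h2 (ε / ∫ s : ℝ, gt δ s) (by positivity)
  rw [add_mul, div_mul_cancel₀ _ hI.ne'] at h3
  exact h3

end Pool.Agent.Helper99.IT
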